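import Mathlib
import Pool.Agent.H2.EL.Ua1
import Pool.Agent.H2.MT.Def

/-!
Bessel inequality for products of multiplicative functions along non-proportional affine forms.

`PairOK a Q D N ζ`: the functions `ζ m conj (ζ m')`, `m ≠ m'`, agree up to `a` with a twisted character on the
primes of `(N ^ a, N]`, and their distance from it up to `N` is at least `D`.
`core`: among `M ≥ 2 / ε ^ 2` such functions one has small correlation with any given bounded sequence.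
-/

set_option autoImplicit false

open Finset

namespace Pool.H2.BS

open Pool.H2.EL Pool.H2.MT Pool.Agent.H1.LP

/-- abstract Bessel inequality -/
theorem bessel {M : ℕ} {x N : ℕ} (hx : x ≤ N) (b : ℕ → ℂ) (hb : ∀ t, ‖b t‖ ≤ 1)
    (F : Fin M → ℕ → ℂ) (hF : ∀ m t, ‖F m t‖ ≤ 1) {ε : ℝ} (hε : 0 < ε) (hM : 2 / ε ^ 2 ≤ M)
    (horth : ∀ m m', m ≠ m' →
      ‖∑ t ∈ range x, F m t * (starRingEnd ℂ) (F m' t)‖ ≤ ε ^ 2 / 2 * N) :
    ∃ m, ‖∑ t ∈ range x, b t * F m t‖ ≤ ε * N := by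
  classical
  by_contra hcon
  push Not at hcon
  have hMpos : (0 : ℝ) < M := lt_of_lt_of_le (by positivity) hM
  have hN0 : (0 : ℝ) ≤ N := Nat.cast_nonneg N
  have hxN : (x : ℝ) ≤ N := by exact_mod_cast hx
  obtain ⟨S, hS⟩ : ∃ S : Fin M → ℂ, S = fun m => ∑ t ∈ range x, b t * F m t := ⟨_, rfl⟩
  obtain ⟨c, hc⟩ : ∃ c : Fin M → ℂ, c = fun m => (starRingEnd ℂ) (S m) / (‖S m‖ : ℂ) := ⟨_, rfl⟩
  have hSpos : ∀ m, 0 < ‖S m‖ := by
    intro m
    have h1 := hcon m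
    have h2 : (∑ t ∈ range x, b t * F m t) = S m := by rw [hS]
    rw [h2] at h1
    exact lt_of_le_of_lt (by positivity) h1
  have hcS : ∀ m, c m * S m = (‖S m‖ : ℂ) := by
    intro m
    have h1 : (‖S m‖ : ℂ) ≠ 0 := by exact_mod_cast (hSpos m).ne'
    rw [hc]
    simp only
    rw [div_mul_eq_mul_div, mul_comm, Complex.mul_conj, Complex.normSq_eq_norm_sq]
    push_cast
    rw [sq, mul_div_assoc, div_self h1, mul_one]
  have hcn : ∀ m, ‖c m‖ ≤ 1 := by
    intro m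
    rw [hc]
    simp only
    rw [norm_div, RCLike.norm_conj, Complex.norm_real, norm_norm]
    exact div_self_le_one _
  -- the sum of the norms
  obtain ⟨G, hG⟩ : ∃ G : ℕ → ℂ, G = fun t => ∑ m, c m * F m t := ⟨_, rfl⟩
  have h1 : ((∑ m, ‖S m‖ : ℝ) : ℂ) = ∑ t ∈ range x, b t * G t := by
    have e1 : ((∑ m, ‖S m‖ : ℝ) : ℂ) = ∑ m, c m * S m := by
      rw [Complex.ofReal_sum]
      exact sum_congr rfl fun m _ => (hcS m).symm
    rw [e1]
    have e2 : ∀ m, c m * S m = ∑ t ∈ range x, b t * (c m * F m t) := by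
      intro m
      rw [hS]
      simp only
      rw [mul_sum]
      exact sum_congr rfl fun t _ => by ring
    rw [sum_congr rfl fun m _ => e2 m, sum_comm]
    refine sum_congr rfl fun t _ => ?_
    rw [hG]
    simp only
    rw [mul_sum]
  have h2 : (∑ m, ‖S m‖) ^ 2 ≤ x * ∑ t ∈ range x, ‖G t‖ ^ 2 := by
    have e1 : ∑ m, ‖S m‖ ≤ ∑ t ∈ range x, ‖G t‖ := by
      have e2 : ‖((∑ m, ‖S m‖ : ℝ) : ℂ)‖ = ∑ m, ‖S m‖ := by
        rw [Complex.norm_real, Real.norm_of_nonneg (sum_nonneg fun m _ => norm_nonneg _)]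
      rw [← e2, h1]
      refine (norm_sum_le _ _).trans (sum_le_sum fun t _ => ?_)
      rw [norm_mul]
      exact mul_le_of_le_one_left (norm_nonneg _) (hb t)
    have e3 : (∑ t ∈ range x, ‖G t‖) ^ 2 ≤ x * ∑ t ∈ range x, ‖G t‖ ^ 2 := by
      have := sq_sum_le_card_mul_sum_sq (s := range x) (f := fun t => ‖G t‖)
      rwa [card_range] at this
    refine le_trans ?_ e3
    exact pow_le_pow_left₀ (sum_nonneg fun m _ => norm_nonneg _) e1 2
  -- the second moment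
  have h3 : ∑ t ∈ range x, ‖G t‖ ^ 2 ≤ M * (N + M * (ε ^ 2 / 2 * N)) := by
    have e1 : ((∑ t ∈ range x, ‖G t‖ ^ 2 : ℝ) : ℂ) =
        ∑ m, ∑ m', c m * (starRingEnd ℂ) (c m') *
          ∑ t ∈ range x, F m t * (starRingEnd ℂ) (F m' t) := by
      rw [Complex.ofReal_sum]
      have e2 : ∀ t, ((‖G t‖ ^ 2 : ℝ) : ℂ) = ∑ m, ∑ m', c m * (starRingEnd ℂ) (c m') *
          (F m t * (starRingEnd ℂ) (F m' t)) := by
        intro t
        rw [← Complex.normSq_eq_norm_sq, ← Complex.mul_conj, hG]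
        simp only
        rw [map_sum, sum_mul_sum]
        refine sum_congr rfl fun m _ => sum_congr rfl fun m' _ => ?_
        rw [map_mul]
        ring
      rw [sum_congr rfl fun t _ => e2 t, sum_comm]
      refine sum_congr rfl fun m _ => ?_
      rw [sum_comm]
      refine sum_congr rfl fun m' _ => ?_
      rw [mul_sum]
    have e3 : ∑ t ∈ range x, ‖G t‖ ^ 2 = ‖((∑ t ∈ range x, ‖G t‖ ^ 2 : ℝ) : ℂ)‖ := by
      rw [Complex.norm_real, Real.norm_of_nonneg (sum_nonneg fun t _ => by positivity)]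
    rw [e3, e1]
    have e4 : ∀ m m', ‖c m * (starRingEnd ℂ) (c m') *
        ∑ t ∈ range x, F m t * (starRingEnd ℂ) (F m' t)‖ ≤
        (if m = m' then (N : ℝ) else 0) + ε ^ 2 / 2 * N := by
      intro m m'
      rw [norm_mul, norm_mul, RCLike.norm_conj]
      have e5 : ‖c m‖ * ‖c m'‖ ≤ 1 := mul_le_one₀ (hcn m) (norm_nonneg _) (hcn m')
      refine (mul_le_of_le_one_left (norm_nonneg _) e5).trans ?_
      split_ifs with hmm
      · have e6 : ‖∑ t ∈ range x, F m t * (starRingEnd ℂ) (F m' t)‖ ≤ x := by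
          refine (norm_sum_le _ _).trans ?_
          calc ∑ t ∈ range x, ‖F m t * (starRingEnd ℂ) (F m' t)‖ ≤ ∑ t ∈ range x, (1 : ℝ) := by
                refine sum_le_sum fun t _ => ?_
                rw [norm_mul, RCLike.norm_conj]
                exact mul_le_one₀ (hF m t) (norm_nonneg _) (hF m' t)
            _ = x := by simp
        have e7 : (0 : ℝ) ≤ ε ^ 2 / 2 * N := by positivity
        linarith
      · rw [zero_add]
        exact horth m m' hmm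
    refine (norm_sum_le _ _).trans ?_
    calc ∑ m, ‖∑ m', c m * (starRingEnd ℂ) (c m') *
        ∑ t ∈ range x, F m t * (starRingEnd ℂ) (F m' t)‖
        ≤ ∑ m : Fin M, ∑ m' : Fin M, ((if m = m' then (N : ℝ) else 0) + ε ^ 2 / 2 * N) :=
          sum_le_sum fun m _ => (norm_sum_le _ _).trans (sum_le_sum fun m' _ => e4 m m')
      _ = M * (N + M * (ε ^ 2 / 2 * N)) := by
          simp only [sum_add_distrib, sum_ite_eq, mem_univ, if_true, sum_const, card_univ,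
            Fintype.card_fin, nsmul_eq_mul]
          ring
  -- the contradiction
  have h4 : (M : ℝ) * (ε * N) < ∑ m, ‖S m‖ := by
    have hne : (univ : Finset (Fin M)).Nonempty := by
      have : 0 < M := by exact_mod_cast hMpos
      exact ⟨⟨0, this⟩, mem_univ _⟩
    calc (M : ℝ) * (ε * N) = ∑ _m : Fin M, ε * (N : ℝ) := by
          rw [sum_const, card_univ, Fintype.card_fin, nsmul_eq_mul]
      _ < ∑ m, ‖S m‖ := by
          refine sum_lt_sum_of_nonempty hne fun m _ => ?_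
          have h5 := hcon m
          have h6 : (∑ t ∈ range x, b t * F m t) = S m := by rw [hS]
          rwa [h6] at h5
  have h5 : ((M : ℝ) * (ε * N)) ^ 2 < (∑ m, ‖S m‖) ^ 2 :=
    pow_lt_pow_left₀ h4 (by positivity) two_ne_zero
  have h6 : (∑ m, ‖S m‖) ^ 2 ≤ N * (M * (N + M * (ε ^ 2 / 2 * N))) := by
    refine h2.trans ?_
    have e1 : (0 : ℝ) ≤ ∑ t ∈ range x, ‖G t‖ ^ 2 := sum_nonneg fun t _ => by positivity
    calc (x : ℝ) * ∑ t ∈ range x, ‖G t‖ ^ 2 ≤ N * ∑ t ∈ range x, ‖G t‖ ^ 2 :=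
          mul_le_mul_of_nonneg_right hxN e1
      _ ≤ N * (M * (N + M * (ε ^ 2 / 2 * N))) := mul_le_mul_of_nonneg_left h3 hN0
  have h7 : (N : ℝ) * (M * (N + M * (ε ^ 2 / 2 * N))) ≤ ((M : ℝ) * (ε * N)) ^ 2 := by
    have e1 : 2 ≤ M * ε ^ 2 := by
      rw [div_le_iff₀ (by positivity)] at hM
      linarith
    have e2 : (0 : ℝ) ≤ N ^ 2 * M := by positivity
    nlinarith [mul_le_mul_of_nonneg_left e1 e2]
  linarith

/-- the product with a conjugate -/
noncomputable def cg (f f' : ArithmeticFunction ℂ) : ArithmeticFunction ℂ :=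
  ⟨fun n => f n * (starRingEnd ℂ) (f' n), by simp⟩

lemma cg_apply (f f' : ArithmeticFunction ℂ) (n : ℕ) :
    cg f f' n = f n * (starRingEnd ℂ) (f' n) := rfl

lemma cg_mult {f f' : ArithmeticFunction ℂ} (hf : f.IsMultiplicative)
    (hf' : f'.IsMultiplicative) : (cg f f').IsMultiplicative := by
  refine ⟨?_, ?_⟩
  · rw [cg_apply, hf.1, hf'.1]
    simp
  · intro m n hmn
    rw [cg_apply, cg_apply, cg_apply, hf.2 hmn, hf'.2 hmn, map_mul]
    ring

lemma cg_norm {f f' : ArithmeticFunction ℂ} (hf : ∀ n, ‖f n‖ ≤ 1) (hf' : ∀ n, ‖f' n‖ ≤ 1)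
    (n : ℕ) : ‖cg f f' n‖ ≤ 1 := by
  rw [cg_apply, norm_mul, RCLike.norm_conj]
  exact mul_le_one₀ (hf n) (norm_nonneg _) (hf' n)

/-- the pairwise condition -/
def PairOK (a : ℝ) (Q : ℕ) (D : ℝ) (N : ℕ) {M : ℕ} (ζ : Fin M → ArithmeticFunction ℂ) : Prop :=
  ∀ m m', m ≠ m' → ∃ (q : ℕ) (χ : DirichletCharacter ℂ q) (t : ℝ), 0 < q ∧ q ≤ Q ∧ |t| ≤ N ∧
    distSq (fun n => ζ m n * (starRingEnd ℂ) (ζ m' n)) χ t ((N : ℝ) ^ a) N ≤ a ∧
    D ≤ distSq (fun n => ζ m n * (starRingEnd ℂ) (ζ m' n)) χ t 0 N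

lemma cj_mul (b : Bool) (z z' : ℂ) : cj b (z * z') = cj b z * cj b z' := by
  unfold cj
  split_ifs
  · rfl
  · rw [map_mul]

lemma cj_cg (c : Bool) (z z' : ℂ) :
    cj c z * (starRingEnd ℂ) (cj c z') = cj c (z * (starRingEnd ℂ) z') := by
  unfold cj
  split_ifs
  · rfl
  · rw [map_mul]

/-- one configuration of affine forms -/
theorem core {r : ℕ} (hr : 1 ≤ r) (E : Frm r) (cc : Fin r → Bool) {ε : ℝ} (hε : 0 < ε) {M : ℕ}
    (hM : 2 / ε ^ 2 ≤ M) :
    ∃ a : ℝ, 0 < a ∧ a ≤ 1 ∧ ∀ Q : ℕ, ∃ (D : ℝ) (N₀ : ℕ), ∀ N : ℕ, N₀ ≤ N →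
      ∀ ζ : Fin M → ArithmeticFunction ℂ, (∀ m, (ζ m).IsMultiplicative) → (∀ m n, ‖ζ m n‖ ≤ 1) →
      PairOK a Q D N ζ → ∀ b : ℕ → ℂ, (∀ t, ‖b t‖ ≤ 1) → ∀ x : ℕ, x ≤ N →
      ∃ m, ‖∑ t ∈ range x, b t * ∏ l, cj (cc l) (ζ m (E.L l t))‖ ≤ ε * N := by
  obtain ⟨a, ha, ha1, h⟩ := ua1 hr E.A E.B cc 0 E.pos (by simpa using E.ne) (ε ^ 2 / 2)
    (by positivity)
  refine ⟨a, ha, ha1, fun Q => ?_⟩
  obtain ⟨D, N₀, h⟩ := h Q
  refine ⟨D, N₀, fun N hN ζ hm hb hP b hbb x hx => ?_⟩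
  refine bessel hx b hbb (fun m t => ∏ l, cj (cc l) (ζ m (E.L l t))) (fun m t => ?_) hε hM ?_
  · rw [norm_prod]
    refine prod_le_one (fun _ _ => norm_nonneg _) fun l _ => ?_
    rw [cj_norm]
    exact hb m _
  · intro m m' hmm
    obtain ⟨q, χ, t, hq, hqQ, ht, h1, h2⟩ := hP m m' hmm
    have h3 := h N hN (cg (ζ m) (ζ m')) (cg_mult (hm m) (hm m')) (cg_norm (hb m) (hb m')) q χ t hq
      hqQ ht h1 h2 x hx
    refine le_trans (le_of_eq ?_) h3
    congr 1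
    refine sum_congr rfl fun s _ => ?_
    rw [map_prod, ← prod_mul_distrib]
    refine prod_congr rfl fun l _ => ?_
    rw [cj_cg]
    rfl

end Pool.H2.BS
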