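import Mathlib
import Pool.Agent.H2.BS.Core
import Pool.Agent.H2.EL.FinC

/-!
The deterministic theorem: at every large scale `N`, among any `K + 1` twists `d * ζ m` of an arbitrary bounded
function `d` by multiplicative functions `ζ m` with pairwise separated small primes and the same large primes, one
has small correlations with ALL multiplicative cofactors.
-/

set_option autoImplicit false

open Finset

namespace Pool.H2.BS

open Pool.H2.EL Pool.H2.MT Pool.Agent.H1.LP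

/-- `PairOK` for smaller parameters -/
lemma PairOK.mono {a a' : ℝ} (ha : a' ≤ a) {Q : ℕ} {D D' : ℝ} (hD : D ≤ D') {N : ℕ} (hN : 1 ≤ N)
    {M : ℕ} {ζ : Fin M → ArithmeticFunction ℂ} (hb : ∀ m n, ‖ζ m n‖ ≤ 1)
    (h : PairOK a' Q D' N ζ) : PairOK a Q D N ζ := by
  intro m m' hmm
  obtain ⟨q, χ, t, hq, hqQ, ht, h1, h2⟩ := h m m' hmm
  refine ⟨q, χ, t, hq, hqQ, ht, ?_, hD.trans h2⟩
  refine le_trans ?_ (h1.trans ha)
  unfold distSq
  refine sum_le_sum_of_subset_of_nonneg ?_ ?_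
  · refine filter_subset_filter _ (Ioc_subset_Ioc_left ?_)
    refine Nat.floor_mono (Real.rpow_le_rpow_of_exponent_le ?_ ha)
    exact_mod_cast hN
  · intro p _ _
    refine div_nonneg ?_ (Nat.cast_nonneg p)
    have h3 : ‖ζ m p * (starRingEnd ℂ) (ζ m' p) *
        (starRingEnd ℂ) (χ (p : ZMod q) * (p : ℂ) ^ (Complex.I * (t : ℂ)))‖ ≤ 1 := by
      rw [norm_mul, RCLike.norm_conj]
      refine mul_le_one₀ ?_ (norm_nonneg _) ?_
      · rw [norm_mul, RCLike.norm_conj]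
        exact mul_le_one₀ (hb m p) (norm_nonneg _) (hb m' p)
      · rw [norm_mul]
        refine mul_le_one₀ (DirichletCharacter.norm_le_one χ _) (norm_nonneg _) ?_
        rcases Nat.eq_zero_or_pos p with h0 | h0
        · subst h0
          rcases eq_or_ne t 0 with ht0 | ht0
          · simp [ht0]
          · rw [Nat.cast_zero, Complex.zero_cpow]
            · simp
            · simp [ht0]
        · rw [Complex.norm_natCast_cpow_of_pos h0]
          simp
    have h4 := (Complex.abs_re_le_norm (ζ m p * (starRingEnd ℂ) (ζ m' p) *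
        (starRingEnd ℂ) (χ (p : ZMod q) * (p : ℂ) ^ (Complex.I * (t : ℂ)))))
    have h5 := (le_abs_self _).trans (h4.trans h3)
    linarith

/-- restriction to fewer functions -/
lemma PairOK.comp {a : ℝ} {Q : ℕ} {D : ℝ} {N : ℕ} {M M' : ℕ} {ζ : Fin M → ArithmeticFunction ℂ}
    (h : PairOK a Q D N ζ) (e : Fin M' → Fin M) (he : Function.Injective e) :
    PairOK a Q D N (fun m => ζ (e m)) := fun m m' hmm => h (e m) (e m') (he.ne hmm)

/-- the configurations with coefficients at most `H` -/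
abbrev Cf (H : ℕ) : Type :=
  Σ r : Fin (H + 1), (Fin r → Fin (H + 1)) × (Fin r → Fin (H + 1)) × (Fin r → Bool)

/-- the valid ones -/
def Cf.Ok {H : ℕ} (h0 : ℕ) (z : Cf H) : Prop :=
  1 ≤ (z.1 : ℕ) ∧ (∀ l, 1 ≤ (z.2.1 l : ℕ)) ∧
    (∀ l l', l ≠ l' → (z.2.1 l : ℕ) * ((z.2.2.1 l' : ℕ) + h0) ≠
      (z.2.1 l' : ℕ) * ((z.2.2.1 l : ℕ) + h0))

/-- all configurations at once, cut points at multiples of `N / R` -/
theorem pig (h0 H : ℕ) {δ : ℝ} (hδ : 0 < δ) :
    ∃ (K : ℕ) (a : ℝ), 0 < a ∧ a ≤ 1 ∧ ∀ Q : ℕ, ∃ (D : ℝ) (N₀ : ℕ), ∀ N : ℕ, N₀ ≤ N →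
      ∀ ζ : Fin (K + 1) → ArithmeticFunction ℂ, (∀ m, (ζ m).IsMultiplicative) →
      (∀ m n, ‖ζ m n‖ ≤ 1) → PairOK a Q D N ζ → ∀ w : ℕ → ℂ, (∀ n, ‖w n‖ ≤ 1) →
      ∃ m, Unc (fun n => w n * ζ m (n + h0)) h0 H N δ := by
  classical
  obtain ⟨M, hM⟩ := exists_nat_ge (2 / (δ / 2) ^ 2)
  have hδ2 : 0 < δ / 2 := by positivity
  have h1 : ∀ z : Cf H, ∃ a : ℝ, 0 < a ∧ a ≤ 1 ∧ ∀ Q : ℕ, ∃ (D : ℝ) (N₀ : ℕ), z.Ok h0 →
      ∀ N : ℕ, N₀ ≤ N → ∀ ζ : Fin M → ArithmeticFunction ℂ, (∀ m, (ζ m).IsMultiplicative) →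
      (∀ m n, ‖ζ m n‖ ≤ 1) → PairOK a Q D N ζ → ∀ b : ℕ → ℂ, (∀ t, ‖b t‖ ≤ 1) → ∀ x : ℕ, x ≤ N →
      ∃ m, ‖∑ t ∈ range x, b t * ∏ l, cj (z.2.2.2 l)
        (ζ m ((z.2.1 l : ℕ) * t + ((z.2.2.1 l : ℕ) + h0)))‖ ≤ δ / 2 * N := by
    intro z
    by_cases hz : z.Ok h0
    · obtain ⟨a, ha, ha1, h⟩ := core hz.1
        ({ A := fun l => (z.2.1 l : ℕ), B := fun l => (z.2.2.1 l : ℕ) + h0, pos := hz.2.1,
           ne := hz.2.2 } : Frm _) z.2.2.2 hδ2 hM
      refine ⟨a, ha, ha1, fun Q => ?_⟩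
      obtain ⟨D, N₀, h⟩ := h Q
      exact ⟨D, N₀, fun _ => h⟩
    · exact ⟨1, one_pos, le_rfl, fun Q => ⟨0, 0, fun h => absurd h hz⟩⟩
  choose a ha ha1 h1 using h1
  obtain ⟨R, hR⟩ := exists_nat_ge (4 / δ)
  have hRpos : (0 : ℝ) < R := lt_of_lt_of_le (by positivity) hR
  have hRpos' : 0 < R := by exact_mod_cast hRpos
  -- the smallest exponent
  obtain ⟨a0, ha0, ha0'⟩ : ∃ a0 : ℝ, (0 < a0 ∧ a0 ≤ 1) ∧ ∀ z, a0 ≤ a z := by
    refine ⟨∏ z, a z, ⟨prod_pos fun z _ => ha z, prod_le_one (fun z _ => (ha z).le)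
      fun z _ => ha1 z⟩, fun z => ?_⟩
    rw [← mul_prod_erase univ a (mem_univ z)]
    exact mul_le_of_le_one_right (ha z).le
      (prod_le_one (fun z _ => (ha z).le) fun z _ => ha1 z)
  refine ⟨Fintype.card (Cf H × Fin (R + 1)) * M, a0, ha0.1, ha0.2, fun Q => ?_⟩
  choose D N₀ h1 using fun z => h1 z Q
  obtain ⟨N₁, hN₁⟩ := exists_nat_ge (4 / δ)
  refine ⟨∑ z, |D z|, ∑ z, N₀ z + N₁ + 1, fun N hN ζ hm hb hP w hw => ?_⟩
  have hNz : ∀ z, N₀ z ≤ N := fun z => by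
    have := single_le_sum (f := N₀) (fun _ _ => Nat.zero_le _) (mem_univ z)
    omega
  have hN1 : 1 ≤ N := by omega
  have hN4 : 1 ≤ δ / 4 * N := by
    have e1 : (4 : ℝ) / δ ≤ N := hN₁.trans (by exact_mod_cast (show N₁ ≤ N by omega))
    rw [div_le_iff₀ hδ] at e1
    linarith
  have hDz : ∀ z, D z ≤ ∑ z, |D z| := fun z =>
    (le_abs_self _).trans (single_le_sum (f := fun z => |D z|) (fun _ _ => abs_nonneg _)
      (mem_univ z))
  by_contra hcon
  push Not at hcon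
  -- a bad configuration for every index
  have h2 : ∀ m : Fin (Fintype.card (Cf H × Fin (R + 1)) * M + 1), ∃ y : Cf H × Fin (R + 1),
      y.1.Ok h0 ∧ δ / 2 * N < ‖∑ t ∈ range (N * y.2 / R),
        (∏ l, cj (y.1.2.2.2 l) (w ((y.1.2.1 l : ℕ) * t + (y.1.2.2.1 l : ℕ)))) *
        ∏ l, cj (y.1.2.2.2 l) (ζ m ((y.1.2.1 l : ℕ) * t + ((y.1.2.2.1 l : ℕ) + h0)))‖ := by
    intro m
    have h3 := hcon m
    unfold Unc at h3
    push Not at h3
    obtain ⟨r, hr, hrH, A, B, c, hA, hB, hne, x, hx, hbig⟩ := h3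
    obtain ⟨j, hj⟩ : ∃ j : ℕ, j = x * R / N := ⟨_, rfl⟩
    have hjR : j ≤ R := by
      rw [hj]
      refine Nat.div_le_of_le_mul ?_
      exact Nat.mul_le_mul_right _ hx
    refine ⟨⟨⟨⟨r, by omega⟩, fun l => ⟨A l, by have := (hA l).2; omega⟩,
      fun l => ⟨B l, by have := hB l; omega⟩, c⟩, ⟨j, by omega⟩⟩, ⟨hr, fun l => (hA l).1, hne⟩, ?_⟩
    have hjx : N * j / R ≤ x := by
      refine Nat.div_le_of_le_mul ?_
      rw [hj]
      calc N * (x * R / N) ≤ x * R := Nat.mul_div_le _ _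
        _ = R * x := mul_comm _ _
    have hjx2 : (x : ℝ) ≤ (N * j / R : ℕ) + δ / 2 * N := by
      have e1 : (x : ℝ) * R < N * (j + 1) := by
        have : x * R < N * (x * R / N + 1) := by
          have e0 := Nat.lt_div_mul_add (a := x * R) (b := N) (by omega)
          nlinarith
        rw [hj]
        exact_mod_cast this
      have e2 : (N : ℝ) * j < R * ((N * j / R : ℕ) + 1) := by
        have : N * j < R * (N * j / R + 1) := by
          have e0 := Nat.lt_div_mul_add (a := N * j) (b := R) hRpos'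
          nlinarith
        exact_mod_cast this
      have e3 : (N : ℝ) ≤ δ / 4 * N * R := by
        rw [div_le_iff₀ hδ] at hR
        have : (0 : ℝ) ≤ N := Nat.cast_nonneg N
        nlinarith
      have e4 : (x : ℝ) * R ≤ ((N * j / R : ℕ) + δ / 2 * N) * R := by nlinarith
      exact le_of_mul_le_mul_right e4 hRpos
    have hterm : ∀ t : ℕ, ‖∏ l, cj (c l) (w (A l * t + B l) * ζ m (A l * t + B l + h0))‖ ≤ 1 := by
      intro t
      rw [norm_prod]
      refine prod_le_one (fun _ _ => norm_nonneg _) fun l _ => ?_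
      rw [cj_norm, norm_mul]
      exact mul_le_one₀ (hw _) (norm_nonneg _) (hb m _)
    have hsplit : ‖∑ t ∈ range x, ∏ l, cj (c l) (w (A l * t + B l) * ζ m (A l * t + B l + h0))‖ ≤
        ‖∑ t ∈ range (N * j / R), ∏ l, cj (c l) (w (A l * t + B l) *
          ζ m (A l * t + B l + h0))‖ + δ / 2 * N := by
      obtain ⟨s, hs⟩ : ∃ s, x = N * j / R + s := ⟨x - N * j / R, by omega⟩
      rw [hs, sum_range_add]
      refine (norm_add_le _ _).trans (add_le_add_right ?_ _)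
      refine (norm_sum_le _ _).trans ((sum_le_sum fun t _ => hterm _).trans ?_)
      rw [sum_const, card_range, nsmul_eq_mul, mul_one]
      have : (x : ℝ) = (N * j / R : ℕ) + s := by exact_mod_cast hs
      linarith
    have h4 : δ / 2 * N < ‖∑ t ∈ range (N * j / R), ∏ l, cj (c l) (w (A l * t + B l) *
          ζ m (A l * t + B l + h0))‖ := by linarith
    refine lt_of_lt_of_le h4 (le_of_eq ?_)
    congr 1
    refine sum_congr rfl fun t _ => ?_
    rw [← prod_mul_distrib]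
    refine prod_congr rfl fun l _ => ?_
    rw [cj_mul, add_assoc]
  choose y hy1 hy2 using h2
  -- pigeonhole
  obtain ⟨y0, _, hy0⟩ := exists_lt_card_fiber_of_mul_lt_card_of_maps_to
    (s := (univ : Finset (Fin (Fintype.card (Cf H × Fin (R + 1)) * M + 1))))
    (t := (univ : Finset (Cf H × Fin (R + 1)))) (f := y) (n := M) (fun _ _ => mem_univ _) (by
      rw [card_univ, card_univ, Fintype.card_fin]
      omega)
  obtain ⟨T, hT, hTc⟩ := exists_subset_card_eq hy0.le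
  have hz := hy1
  obtain ⟨e, he, heT⟩ : ∃ e : Fin M → Fin (Fintype.card (Cf H × Fin (R + 1)) * M + 1),
      Function.Injective e ∧ ∀ m, e m ∈ T := by
    refine ⟨fun m => (T.orderEmbOfFin hTc m), (T.orderEmbOfFin hTc).injective, fun m => ?_⟩
    exact orderEmbOfFin_mem T hTc m
  have hye : ∀ m, y (e m) = y0 := fun m => (mem_filter.1 (hT (heT m))).2
  have hok : y0.1.Ok h0 := by
    have hMpos : 0 < M := by
      have : (0 : ℝ) < M := lt_of_lt_of_le (by positivity) hM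
      exact_mod_cast this
    rw [← hye ⟨0, hMpos⟩]
    exact hy1 _
  obtain ⟨m, hm'⟩ := h1 y0.1 hok N (hNz _) (fun m => ζ (e m)) (fun m => hm _)
    (fun m n => hb _ n) ((hP.comp e he).mono (ha0' y0.1) (hDz y0.1) hN1 (fun m n => hb _ n))
    (fun t => ∏ l, cj (y0.1.2.2.2 l) (w ((y0.1.2.1 l : ℕ) * t + (y0.1.2.2.1 l : ℕ)))) (fun t => by
      rw [norm_prod]
      refine prod_le_one (fun _ _ => norm_nonneg _) fun l _ => ?_
      rw [cj_norm]
      exact hw _) (N * y0.2 / R) (by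
      refine Nat.div_le_of_le_mul ?_
      rw [mul_comm]
      exact Nat.mul_le_mul_right _ (Nat.le_of_lt_succ y0.2.2))
  have h5 := hy2 (e m)
  rw [hye m] at h5
  linarith

end Pool.H2.BS
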