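import Mathlib
import Pool.Agent.H2.BS.Det

/-!
Almost orthogonal families, abstract form: if the quotients `ζ m conj (ζ m')` (`m ≠ m'`) have small correlations with
themselves along non-proportional affine forms at the scale `N`, then for any bounded functions one of the twists
`d j * ζ m` has small correlations with ALL multiplicative cofactors.  The `ζ m` need not be multiplicative.
-/

set_option autoImplicit false

open Finset

namespace Pool.H2.BS

open Pool.H2.EL Pool.H2.MT Pool.Agent.H1.LP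

/-- the quotients of the family have small self-correlations -/
def Orth (h0 H N : ℕ) (η : ℝ) {M : ℕ} (ζ : Fin M → ℕ → ℂ) : Prop :=
  ∀ m m', m ≠ m' → Unc (fun n => ζ m (n + h0) * (starRingEnd ℂ) (ζ m' (n + h0))) h0 H N η

/-- all configurations at once, cut points at multiples of `N / R` -/
theorem pigA (h0 H : ℕ) {δ : ℝ} (hδ : 0 < δ) :
    ∃ (K : ℕ) (η : ℝ) (N₀ : ℕ), 0 < η ∧ ∀ N : ℕ, N₀ ≤ N →
      ∀ ζ : Fin (K + 1) → ℕ → ℂ, (∀ m n, ‖ζ m n‖ ≤ 1) → Orth h0 H N η ζ →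
      ∀ w : ℕ → ℂ, (∀ n, ‖w n‖ ≤ 1) →
      ∃ m, Unc (fun n => w n * ζ m (n + h0)) h0 H N δ := by
  classical
  obtain ⟨M, hM⟩ := exists_nat_ge (2 / (δ / 2) ^ 2)
  have hδ2 : 0 < δ / 2 := by positivity
  obtain ⟨R, hR⟩ := exists_nat_ge (4 / δ)
  have hRpos : (0 : ℝ) < R := lt_of_lt_of_le (by positivity) hR
  have hRpos' : 0 < R := by exact_mod_cast hRpos
  obtain ⟨N₁, hN₁⟩ := exists_nat_ge (4 / δ)
  refine ⟨Fintype.card (Cf H × Fin (R + 1)) * M, (δ / 2) ^ 2 / 2, N₁ + 1, by positivity,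
    fun N hN ζ hb hP w hw => ?_⟩
  have hN1 : 1 ≤ N := by omega
  have hN4 : 1 ≤ δ / 4 * N := by
    have e1 : (4 : ℝ) / δ ≤ N := hN₁.trans (by exact_mod_cast (show N₁ ≤ N by omega))
    rw [div_le_iff₀ hδ] at e1
    linarith
  have h1 : ∀ z : Cf H, z.Ok h0 → ∀ e : Fin M → Fin (Fintype.card (Cf H × Fin (R + 1)) * M + 1),
      Function.Injective e → ∀ b : ℕ → ℂ, (∀ t, ‖b t‖ ≤ 1) → ∀ x : ℕ, x ≤ N →
      ∃ m, ‖∑ t ∈ range x, b t * ∏ l, cj (z.2.2.2 l)
        (ζ (e m) ((z.2.1 l : ℕ) * t + ((z.2.2.1 l : ℕ) + h0)))‖ ≤ δ / 2 * N := by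
    intro z hz e he b hbb x hx
    refine bessel hx b hbb (fun m t => ∏ l, cj (z.2.2.2 l)
      (ζ (e m) ((z.2.1 l : ℕ) * t + ((z.2.2.1 l : ℕ) + h0)))) (fun m t => ?_) hδ2 hM ?_
    · rw [norm_prod]
      refine prod_le_one (fun _ _ => norm_nonneg _) fun l _ => ?_
      rw [cj_norm]
      exact hb _ _
    · intro m m' hmm
      have h3 := hP (e m) (e m') (he.ne hmm) (z.1 : ℕ) hz.1 (Nat.le_of_lt_succ z.1.2)
        (fun l => (z.2.1 l : ℕ)) (fun l => (z.2.2.1 l : ℕ)) z.2.2.2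
        (fun l => ⟨hz.2.1 l, Nat.le_of_lt_succ (z.2.1 l).2⟩)
        (fun l => Nat.le_of_lt_succ (z.2.2.1 l).2) hz.2.2 x hx
      refine le_trans (le_of_eq ?_) h3
      congr 1
      refine sum_congr rfl fun s _ => ?_
      rw [map_prod, ← prod_mul_distrib]
      refine prod_congr rfl fun l _ => ?_
      rw [cj_mul, ← add_assoc]
      congr 1
      unfold cj
      split_ifs <;> simp
  by_contra hcon
  push Not at hcon
  -- a bad configuration for every index
  have h2 : ∀ m : Fin (Fintype.card (Cf H × Fin (R + 1)) * M + 1), ∃ y : Cf H × Fin (R + 1),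
      y.1.Ok h0 ∧ δ / 2 * N < ‖∑ t ∈ range (N * y.2 / R),
        (∏ l, cj (y.1.2.2.2 l) (w ((y.1.2.1 l : ℕ) * t + (y.1.2.2.1 l : ℕ)))) *
        ∏ l, cj (y.1.2.2.2 l) (ζ m ((y.1.2.1 l : ℕ) * t + ((y.1.2.2.1 l : ℕ) + h0)))‖ := by
    intro m
    have h3 := hcon m
    unfold Unc at h3
    push Not at h3
    obtain ⟨r, hr, hrH, A, B, c, hA, hB, hne, x, hx, hbig⟩ := h3
    obtain ⟨j, hj⟩ : ∃ j : ℕ, j = x * R / N := ⟨_, rfl⟩
    have hjR : j ≤ R := by
      rw [hj]
      refine Nat.div_le_of_le_mul ?_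
      exact Nat.mul_le_mul_right _ hx
    refine ⟨⟨⟨⟨r, by omega⟩, fun l => ⟨A l, by have := (hA l).2; omega⟩,
      fun l => ⟨B l, by have := hB l; omega⟩, c⟩, ⟨j, by omega⟩⟩, ⟨hr, fun l => (hA l).1, hne⟩, ?_⟩
    have hjx : N * j / R ≤ x := by
      refine Nat.div_le_of_le_mul ?_
      rw [hj]
      calc N * (x * R / N) ≤ x * R := Nat.mul_div_le _ _
        _ = R * x := mul_comm _ _
    have hjx2 : (x : ℝ) ≤ (N * j / R : ℕ) + δ / 2 * N := by
      have e1 : (x : ℝ) * R < N * (j + 1) := by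
        have : x * R < N * (x * R / N + 1) := by
          have e0 := Nat.lt_div_mul_add (a := x * R) (b := N) (by omega)
          nlinarith
        rw [hj]
        exact_mod_cast this
      have e2 : (N : ℝ) * j < R * ((N * j / R : ℕ) + 1) := by
        have : N * j < R * (N * j / R + 1) := by
          have e0 := Nat.lt_div_mul_add (a := N * j) (b := R) hRpos'
          nlinarith
        exact_mod_cast this
      have e3 : (N : ℝ) ≤ δ / 4 * N * R := by
        rw [div_le_iff₀ hδ] at hR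
        have : (0 : ℝ) ≤ N := Nat.cast_nonneg N
        nlinarith
      have e4 : (x : ℝ) * R ≤ ((N * j / R : ℕ) + δ / 2 * N) * R := by nlinarith
      exact le_of_mul_le_mul_right e4 hRpos
    have hterm : ∀ t : ℕ, ‖∏ l, cj (c l) (w (A l * t + B l) * ζ m (A l * t + B l + h0))‖ ≤ 1 := by
      intro t
      rw [norm_prod]
      refine prod_le_one (fun _ _ => norm_nonneg _) fun l _ => ?_
      rw [cj_norm, norm_mul]
      exact mul_le_one₀ (hw _) (norm_nonneg _) (hb m _)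
    have hsplit : ‖∑ t ∈ range x, ∏ l, cj (c l) (w (A l * t + B l) * ζ m (A l * t + B l + h0))‖ ≤
        ‖∑ t ∈ range (N * j / R), ∏ l, cj (c l) (w (A l * t + B l) *
          ζ m (A l * t + B l + h0))‖ + δ / 2 * N := by
      obtain ⟨s, hs⟩ : ∃ s, x = N * j / R + s := ⟨x - N * j / R, by omega⟩
      rw [hs, sum_range_add]
      refine (norm_add_le _ _).trans (add_le_add_right ?_ _)
      refine (norm_sum_le _ _).trans ((sum_le_sum fun t _ => hterm _).trans ?_)
      rw [sum_const, card_range, nsmul_eq_mul, mul_one]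
      have : (x : ℝ) = (N * j / R : ℕ) + s := by exact_mod_cast hs
      linarith
    have h4 : δ / 2 * N < ‖∑ t ∈ range (N * j / R), ∏ l, cj (c l) (w (A l * t + B l) *
          ζ m (A l * t + B l + h0))‖ := by linarith
    refine lt_of_lt_of_le h4 (le_of_eq ?_)
    congr 1
    refine sum_congr rfl fun t _ => ?_
    rw [← prod_mul_distrib]
    refine prod_congr rfl fun l _ => ?_
    rw [cj_mul, add_assoc]
  choose y hy1 hy2 using h2
  -- pigeonhole
  obtain ⟨y0, _, hy0⟩ := exists_lt_card_fiber_of_mul_lt_card_of_maps_to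
    (s := (univ : Finset (Fin (Fintype.card (Cf H × Fin (R + 1)) * M + 1))))
    (t := (univ : Finset (Cf H × Fin (R + 1)))) (f := y) (n := M) (fun _ _ => mem_univ _) (by
      rw [card_univ, card_univ, Fintype.card_fin]
      omega)
  obtain ⟨T, hT, hTc⟩ := exists_subset_card_eq hy0.le
  obtain ⟨e, he, heT⟩ : ∃ e : Fin M → Fin (Fintype.card (Cf H × Fin (R + 1)) * M + 1),
      Function.Injective e ∧ ∀ m, e m ∈ T := by
    refine ⟨fun m => (T.orderEmbOfFin hTc m), (T.orderEmbOfFin hTc).injective, fun m => ?_⟩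
    exact orderEmbOfFin_mem T hTc m
  have hye : ∀ m, y (e m) = y0 := fun m => (mem_filter.1 (hT (heT m))).2
  have hok : y0.1.Ok h0 := by
    have hMpos : 0 < M := by
      have : (0 : ℝ) < M := lt_of_lt_of_le (by positivity) hM
      exact_mod_cast this
    rw [← hye ⟨0, hMpos⟩]
    exact hy1 _
  obtain ⟨m, hm'⟩ := h1 y0.1 hok e he
    (fun t => ∏ l, cj (y0.1.2.2.2 l) (w ((y0.1.2.1 l : ℕ) * t + (y0.1.2.2.1 l : ℕ)))) (fun t => by
      rw [norm_prod]
      refine prod_le_one (fun _ _ => norm_nonneg _) fun l _ => ?_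
      rw [cj_norm]
      exact hw _) (N * y0.2 / R) (by
      refine Nat.div_le_of_le_mul ?_
      rw [mul_comm]
      exact Nat.mul_le_mul_right _ (Nat.le_of_lt_succ y0.2.2))
  have h5 := hy2 (e m)
  rw [hye m] at h5
  linarith

/-- Tuples with integer shifts: among `K + 1` twists of ANY bounded function by a family with almost orthogonal
quotients, one has small correlations with all cofactors. -/
theorem absA (k : ℕ) (h : Fin k → ℤ) (j : Fin k) (hne : ∀ i, i ≠ j → h i ≠ h j) {ε : ℝ}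
    (hε : 0 < ε) :
    ∃ (h0 H K : ℕ) (η : ℝ) (N₀ : ℕ), 0 < η ∧ ∀ N : ℕ, N₀ ≤ N →
      ∀ ζ : Fin (K + 1) → ℕ → ℂ, (∀ m n, ‖ζ m n‖ ≤ 1) → Orth h0 H N η ζ →
      ∀ (S : Finset (Fin k)), j ∉ S → ∀ d : Fin k → ArithmeticFunction ℂ, (∀ x n, ‖d x n‖ ≤ 1) →
      ∃ m, ∀ G : Fin k → ArithmeticFunction ℂ, (∀ x n, ‖G x n‖ ≤ 1) →
      (∀ x ∈ S, (G x).IsMultiplicative) → (∀ x, x ∉ S → x ≠ j → G x = d x) →
      (∀ n, G j n = d j n * ζ m n) →
      ‖(1 / (N : ℂ)) * ∑ n ∈ Icc 1 N, ∏ x, G x ((n : ℤ) + h x).toNat‖ ≤ ε := by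
  classical
  rcases k with _ | k
  · exact j.elim0
  obtain ⟨H, δ, N0, s, hδ, hs, hfin⟩ := fin_core k h j hne ε hε
  obtain ⟨K, η, N₀, hη, hpig⟩ := pigA (h j + s).toNat H hδ
  refine ⟨(h j + s).toNat, H, K, η, max N0 N₀, hη, fun N hN ζ hb hP S hjS d hd => ?_⟩
  obtain ⟨m, hU⟩ := hpig N ((le_max_right _ _).trans hN) ζ hb hP
    (fun n => ∏ x ∈ univ \ S, d x (n + (h x + s).toNat)) (fun n => by
      rw [norm_prod]
      exact prod_le_one (fun _ _ => norm_nonneg _) fun x _ => hd x _)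
  refine ⟨m, fun G hG hGS hGd hGj => ?_⟩
  refine hfin N ((le_max_left _ _).trans hN) G S hjS hG hGS ?_
  have h1 : (fun n => ∏ x ∈ univ \ S, G x (n + (h x + s).toNat)) =
      fun n => (∏ x ∈ univ \ S, d x (n + (h x + s).toNat)) * ζ m (n + (h j + s).toNat) := by
    funext n
    have hjm : j ∈ univ \ S := by
      rw [mem_sdiff]
      exact ⟨mem_univ _, hjS⟩
    rw [← mul_prod_erase _ _ hjm, ← mul_prod_erase _ (fun x => d x (n + (h x + s).toNat)) hjm,
      hGj]
    have h2 : ∏ x ∈ (univ \ S).erase j, G x (n + (h x + s).toNat) =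
        ∏ x ∈ (univ \ S).erase j, d x (n + (h x + s).toNat) := by
      refine prod_congr rfl fun x hx => ?_
      rw [mem_erase, mem_sdiff] at hx
      rw [hGd x hx.2.2 hx.1]
    rw [h2]
    ring
  rw [h1]
  exact hU

end Pool.H2.BS
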