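import Mathlib
import Pool.Agent.H2.BS.Core

/-!
Functions determined by their values at the primes dividing exactly once, blocks of primes.
-/

set_option autoImplicit false

open Finset MeasureTheory

namespace Pool.H2.BS

open Pool.H2.EL Pool.H2.MT

/-- the multiplicative function with values `ζ p` at the primes and `1` at the higher powers -/
noncomputable def UA (ζ : ℕ → ℂ) : ArithmeticFunction ℂ :=
  ⟨fun n => if n = 0 then 0 else ∏ p ∈ ex n, ζ p, by simp⟩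

lemma UA_apply {ζ : ℕ → ℂ} {n : ℕ} (hn : n ≠ 0) : UA ζ n = ∏ p ∈ ex n, ζ p := by
  change (if n = 0 then 0 else ∏ p ∈ ex n, ζ p) = _
  rw [if_neg hn]

lemma UA_norm {ζ : ℕ → ℂ} (h : ∀ p, ‖ζ p‖ ≤ 1) (n : ℕ) : ‖UA ζ n‖ ≤ 1 := by
  rcases eq_or_ne n 0 with h0 | h0
  · rw [h0, ArithmeticFunction.map_zero, norm_zero]
    exact zero_le_one
  · rw [UA_apply h0, norm_prod]
    exact prod_le_one (fun _ _ => norm_nonneg _) fun p _ => h p

lemma UA_mul (ζ ξ : ℕ → ℂ) (n : ℕ) : UA (fun p => ζ p * ξ p) n = UA ζ n * UA ξ n := by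
  rcases eq_or_ne n 0 with h0 | h0
  · rw [h0, ArithmeticFunction.map_zero, ArithmeticFunction.map_zero, zero_mul]
  · rw [UA_apply h0, UA_apply h0, UA_apply h0, prod_mul_distrib]

lemma ex_mul {m n : ℕ} (hm : m ≠ 0) (hn : n ≠ 0) (h : Nat.Coprime m n) :
    ex (m * n) = ex m ∪ ex n := by
  unfold ex
  ext p
  simp only [mem_filter, mem_union, Nat.mem_primeFactors]
  constructor
  · rintro ⟨⟨hp, hd, _⟩, h2⟩
    rcases (hp.dvd_mul).1 hd with h3 | h3
    · exact Or.inl ⟨⟨hp, h3, hm⟩, fun h4 => h2 (h4.mul_right _)⟩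
    · exact Or.inr ⟨⟨hp, h3, hn⟩, fun h4 => h2 (h4.mul_left _)⟩
  · rintro (⟨⟨hp, hd, _⟩, h2⟩ | ⟨⟨hp, hd, _⟩, h2⟩)
    · refine ⟨⟨hp, hd.mul_right _, mul_ne_zero hm hn⟩, fun h4 => h2 ?_⟩
      have hc : Nat.Coprime (p ^ 2) n := Nat.Coprime.pow_left 2 (Nat.Coprime.coprime_dvd_left hd h)
      exact hc.dvd_of_dvd_mul_right h4
    · refine ⟨⟨hp, hd.mul_left _, mul_ne_zero hm hn⟩, fun h4 => h2 ?_⟩
      have hc : Nat.Coprime (p ^ 2) m :=
        Nat.Coprime.pow_left 2 (Nat.Coprime.coprime_dvd_left hd h.symm)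
      exact hc.dvd_of_dvd_mul_left h4

lemma ex_disj {m n : ℕ} (h : Nat.Coprime m n) : Disjoint (ex m) (ex n) := by
  unfold ex
  exact (Nat.Coprime.disjoint_primeFactors h).mono (filter_subset _ _) (filter_subset _ _)

lemma UA_mult (ζ : ℕ → ℂ) : (UA ζ).IsMultiplicative := by
  refine ⟨?_, ?_⟩
  · rw [UA_apply one_ne_zero]
    simp [ex]
  · intro m n hmn
    rcases eq_or_ne m 0 with hm | hm
    · rw [hm, zero_mul, ArithmeticFunction.map_zero, zero_mul]
    rcases eq_or_ne n 0 with hn | hn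
    · rw [hn, mul_zero, ArithmeticFunction.map_zero, mul_zero]
    rw [UA_apply (mul_ne_zero hm hn), UA_apply hm, UA_apply hn, ex_mul hm hn hmn,
      prod_union (ex_disj hmn)]

lemma ex_prime {p : ℕ} (hp : p.Prime) : ex p = {p} := by
  unfold ex
  rw [Nat.Prime.primeFactors hp, filter_singleton, if_pos]
  intro h
  have h1 := Nat.le_of_dvd hp.pos h
  have h2 := hp.two_le
  nlinarith

lemma UA_prime {ζ : ℕ → ℂ} {p : ℕ} (hp : p.Prime) : UA ζ p = ζ p := by
  rw [UA_apply hp.ne_zero, ex_prime hp, prod_singleton]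

/-- cut off -/
noncomputable def cl (z : ℂ) : ℂ := if ‖z‖ ≤ 1 then z else 0

lemma cl_norm (z : ℂ) : ‖cl z‖ ≤ 1 := by
  unfold cl
  split_ifs with h
  · exact h
  · simp

lemma cl_eq {z : ℂ} (h : ‖z‖ ≤ 1) : cl z = z := if_pos h

lemma measurable_cl : Measurable cl :=
  Measurable.ite (measurableSet_le measurable_norm measurable_const) measurable_id
    measurable_const

open Classical in
/-- the function with values `x` on the blocks of `S` and `1` elsewhere -/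
noncomputable def ext (B : ℕ → Finset ℕ) (S : Finset ℕ) (x : (j : S) → (B j) → ℂ) (p : ℕ) : ℂ :=
  if h : ∃ j : S, p ∈ B j then cl (x h.choose ⟨p, h.choose_spec⟩) else 1

lemma ext_norm (B : ℕ → Finset ℕ) (S : Finset ℕ) (x : (j : S) → (B j) → ℂ) (p : ℕ) :
    ‖ext B S x p‖ ≤ 1 := by
  unfold ext
  split_ifs
  · exact cl_norm _
  · simp

lemma ext_off {B : ℕ → Finset ℕ} {S : Finset ℕ} (x : (j : S) → (B j) → ℂ) {p : ℕ}
    (h : ∀ j ∈ S, p ∉ B j) : ext B S x p = 1 := by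
  unfold ext
  rw [dif_neg]
  rintro ⟨j, hj⟩
  exact h j j.2 hj

lemma ext_on {B : ℕ → Finset ℕ} (hB : ∀ i j, i ≠ j → Disjoint (B i) (B j)) {S : Finset ℕ}
    (x : (j : S) → (B j) → ℂ) {p : ℕ} (j : S) (h : p ∈ B j) : ext B S x p = cl (x j ⟨p, h⟩) := by
  have h1 : ∃ j : S, p ∈ B j := ⟨j, h⟩
  unfold ext
  rw [dif_pos h1]
  have h2 : h1.choose = j := by
    by_contra h3
    have h4 : ((h1.choose : S) : ℕ) ≠ j := fun h5 => h3 (Subtype.ext h5)
    exact (Finset.disjoint_left.1 (hB _ _ h4)) h1.choose_spec h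
  congr 1
  have h5 : ∀ (i : S) (hi : p ∈ B i), i = j → x i ⟨p, hi⟩ = x j ⟨p, h⟩ := by
    rintro i hi rfl
    rfl
  exact h5 _ _ h2

lemma ext_real {B : ℕ → Finset ℕ} {S : Finset ℕ} {f : ℕ → ℂ} (hf : ∀ p, ‖f p‖ ≤ 1) {p : ℕ}
    {j : ℕ} (hj : j ∈ S) (h : p ∈ B j) : ext B S (fun _ q => f q) p = f p := by
  have h1 : ∃ j : S, p ∈ B j := ⟨⟨j, hj⟩, h⟩
  unfold ext
  rw [dif_pos h1]
  exact cl_eq (hf p)

lemma measurable_ext (B : ℕ → Finset ℕ) (S : Finset ℕ) (p : ℕ) :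
    Measurable (fun x : (j : S) → (B j) → ℂ => ext B S x p) := by
  unfold ext
  by_cases h : ∃ j : S, p ∈ B j
  · simp only [h, dif_pos]
    exact measurable_cl.comp ((measurable_pi_apply _).comp (measurable_pi_apply _))
  · simp only [h, dif_neg, not_false_eq_true]
    exact measurable_const

/-- few pairwise related elements: the set is covered by few classes -/
theorem cover {α : Type} (R : α → α → Prop) (hR : ∀ x y, R x y → R y x) (A : Set α) (M : ℕ)
    (h : ∀ f : Fin M → α, (∀ m, f m ∈ A) → ∃ m m', m ≠ m' ∧ ¬ R (f m) (f m')) :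
    ∃ n : ℕ, n < M ∧ ∃ f : Fin n → α, ∀ x ∈ A, ∃ i, ¬ R x (f i) := by
  classical
  obtain ⟨P, hP⟩ : ∃ P : ℕ → Prop, P = fun n => ∃ f : Fin n → α, (∀ m, f m ∈ A) ∧
      ∀ m m', m ≠ m' → R (f m) (f m') := ⟨_, rfl⟩
  have h0 : P 0 := by
    rw [hP]
    exact ⟨fun i => i.elim0, fun i => i.elim0, fun i => i.elim0⟩
  have hlt : ∀ n, P n → n < M := by
    intro n hn
    rw [hP] at hn
    obtain ⟨f, hf, hf2⟩ := hn
    by_contra hnM
    obtain ⟨m, m', hmm, hcon⟩ := h (fun i => f (Fin.castLE (not_lt.1 hnM) i)) (fun m => hf _)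
    exact hcon (hf2 _ _ (fun he => hmm (Fin.castLE_injective _ he)))
  obtain ⟨n, hn, hmax⟩ : ∃ n, P n ∧ ¬ P (n + 1) := by
    by_contra hcon
    push Not at hcon
    have : ∀ n, P n := fun n => Nat.rec h0 (fun k hk => hcon k hk) n
    exact lt_irrefl _ (hlt M (this M))
  refine ⟨n, hlt n hn, ?_⟩
  rw [hP] at hn hmax
  obtain ⟨f, hf, hf2⟩ := hn
  refine ⟨f, fun x hx => ?_⟩
  by_contra hcon
  push Not at hcon
  apply hmax
  refine ⟨Fin.cons x f, fun m => ?_, fun m m' hmm => ?_⟩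
  · refine Fin.cases ?_ (fun i => ?_) m
    · exact hx
    · rw [Fin.cons_succ]
      exact hf i
  · revert hmm
    refine Fin.cases ?_ (fun i => ?_) m
    · refine Fin.cases ?_ (fun i' => ?_) m'
      · intro h1
        exact absurd rfl h1
      · intro _
        rw [Fin.cons_zero, Fin.cons_succ]
        exact hcon i'
    · refine Fin.cases ?_ (fun i' => ?_) m'
      · intro _
        rw [Fin.cons_zero, Fin.cons_succ]
        exact hR _ _ (hcon i)
      · intro h1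
        rw [Fin.cons_succ, Fin.cons_succ]
        exact hf2 i i' (fun h2 => h1 (by rw [h2]))

end Pool.H2.BS
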