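import Mathlib
import Pool.Agent.H2.BS.Def

/-!
The data of the random theorem: disjoint blocks of primes, independent blocks of values, summable small ball
probabilities.
-/

set_option autoImplicit false

open Finset MeasureTheory ProbabilityTheory

namespace Pool.H2.BS

open Pool.H2.EL Pool.H2.MT

/-- disjoint blocks `B j` of primes, a random function with independent blocks -/
structure Dat (Ω : Type) [MeasurableSpace Ω] (μ : Measure Ω) where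
  B : ℕ → Finset ℕ
  F : ℕ → Ω → ℂ
  v : ℕ → ℂ
  prime : ∀ j, ∀ p ∈ B j, p.Prime
  disj : ∀ i j, i ≠ j → Disjoint (B i) (B j)
  meas : ∀ p, Measurable (F p)
  bd : ∀ p ω, ‖F p ω‖ ≤ 1
  det : ∀ p, (∀ j, p ∉ B j) → ∀ ω, F p ω = v p
  ind : iIndepFun (fun j ω (p : B j) => F p ω) μ

variable {Ω : Type} [MeasurableSpace Ω] {μ : Measure Ω}

/-- the distance on a block -/
noncomputable def Dat.d (D : Dat Ω μ) (h : ℕ → ℂ) (j : ℕ) (ω : Ω) : ℝ :=
  ∑ p ∈ D.B j, (1 - (D.F p ω * (starRingEnd ℂ) (h p)).re) / (p : ℝ)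

/-- summable small ball probabilities -/
def Dat.SB (D : Dat Ω μ) : Prop :=
  ∀ R : ℝ, ∃ (H : ℕ → Finset ℕ) (q : ℕ → ℝ), Summable q ∧
    (∀ i, ∀ j ∈ H i, ∀ p ∈ D.B j, (p : ℝ) ≤ Real.exp i) ∧
    ∀ i (h : ℕ → ℂ), (∀ p, ‖h p‖ ≤ 1) →
      μ {ω | ∑ j ∈ H i, D.d h j ω < R} ≤ ENNReal.ofReal (q i)

lemma Dat.d_nonneg (D : Dat Ω μ) {h : ℕ → ℂ} (hh : ∀ p, ‖h p‖ ≤ 1) (j : ℕ) (ω : Ω) :
    0 ≤ D.d h j ω := by
  unfold Dat.d
  refine sum_nonneg fun p _ => div_nonneg ?_ (Nat.cast_nonneg p)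
  have h1 : ‖D.F p ω * (starRingEnd ℂ) (h p)‖ ≤ 1 := by
    rw [norm_mul, RCLike.norm_conj]
    exact mul_le_one₀ (D.bd p ω) (norm_nonneg _) (hh p)
  have h2 := (le_abs_self _).trans
    ((Complex.abs_re_le_norm (D.F p ω * (starRingEnd ℂ) (h p))).trans h1)
  linarith

end Pool.H2.BS
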