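import Mathlib
import Pool.Agent.H2.BS.Def

/-!
The exceptional set of a fibre (given values at the large primes) is covered by boundedly many balls.
-/

set_option autoImplicit false

open Finset

namespace Pool.H2.BS

open Pool.H2.EL Pool.H2.MT Pool.Agent.H1.LP

lemma ds_one (g : ℕ → ℂ) (y x : ℝ) : distSq g (1 : DirichletCharacter ℂ 1) 0 y x =
    ∑ p ∈ (Ioc ⌊y⌋₊ ⌊x⌋₊).filter Nat.Prime, (1 - (g p).re) / (p : ℝ) := by
  unfold distSq
  refine sum_congr rfl fun p _ => ?_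
  have h1 : (1 : DirichletCharacter ℂ 1) (p : ZMod 1) = 1 :=
    MulChar.one_apply (isUnit_of_subsingleton _)
  rw [h1]
  simp

lemma re_symm (z w : ℂ) : (z * (starRingEnd ℂ) w).re = (w * (starRingEnd ℂ) z).re := by
  simp only [Complex.mul_re, Complex.conj_re, Complex.conj_im]
  ring

lemma one_sub_nonneg {z w : ℂ} (hz : ‖z‖ ≤ 1) (hw : ‖w‖ ≤ 1) :
    0 ≤ 1 - (z * (starRingEnd ℂ) w).re := by
  have h1 : ‖z * (starRingEnd ℂ) w‖ ≤ 1 := by
    rw [norm_mul, RCLike.norm_conj]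
    exact mul_le_one₀ hz (norm_nonneg _) hw
  have h2 := (le_abs_self _).trans ((Complex.abs_re_le_norm (z * (starRingEnd ℂ) w)).trans h1)
  linarith

theorem fib {r : ℕ} (hr : 1 ≤ r) (E : Frm r) (cc : Fin r → Bool) {ε : ℝ} (hε : 0 < ε) :
    ∃ (M : ℕ) (a R : ℝ) (N₀ : ℕ), 0 < a ∧ a ≤ 1 ∧ ∀ N : ℕ, N₀ ≤ N → ∀ (B : ℕ → Finset ℕ),
      (∀ j, ∀ p ∈ B j, p.Prime) → (∀ i j, i ≠ j → Disjoint (B i) (B j)) → ∀ J : Finset ℕ,
      (∀ j ∈ J, ∀ p ∈ B j, (p : ℝ) ≤ (N : ℝ) ^ a) → ∀ b : ℕ → ℂ, (∀ t, ‖b t‖ ≤ 1) →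
      ∃ n : ℕ, n < M ∧ ∃ c : Fin n → ((j : J) → (B j) → ℂ), ∀ x : (j : J) → (B j) → ℂ,
      ε * N < ‖∑ t ∈ range N, b t * ∏ l, cj (cc l) (UA (ext B J x) (E.L l t))‖ →
      ∃ i, ∑ j ∈ J, ∑ p ∈ B j,
        (1 - (ext B J x p * (starRingEnd ℂ) (ext B J (c i) p)).re) / (p : ℝ)
          < R := by
  classical
  obtain ⟨M, hM⟩ := exists_nat_ge (2 / ε ^ 2)
  obtain ⟨a, ha, ha1, h⟩ := core hr E cc hε hM
  obtain ⟨R, N₀, h⟩ := h 1
  refine ⟨M, a, R, N₀ + 1, ha, ha1, fun N hN B hBp hBd J hJ b hb => ?_⟩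
  have hN1 : 1 ≤ N := by omega
  have hN1r : (1 : ℝ) ≤ N := by exact_mod_cast hN1
  obtain ⟨n, hn, c, hc⟩ := cover
    (fun x y : (j : J) → (B j) → ℂ => R ≤ ∑ p ∈ (Ioc 0 N).filter Nat.Prime,
      (1 - (ext B J x p * (starRingEnd ℂ) (ext B J y p)).re) / (p : ℝ))
    (fun x y hxy => by
      refine hxy.trans (le_of_eq (sum_congr rfl fun p _ => ?_))
      rw [re_symm])
    {x | ε * N < ‖∑ t ∈ range N, b t * ∏ l, cj (cc l) (UA (ext B J x) (E.L l t))‖} M
    (by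
      intro f hf
      by_contra hcon
      push Not at hcon
      obtain ⟨m, hm⟩ := h N (by omega) (fun m => UA (ext B J (f m)))
        (fun m => UA_mult _) (fun m n => UA_norm (fun p => ext_norm _ _ _ p) n) (by
          intro m m' hmm
          refine ⟨1, 1, 0, one_pos, le_rfl, by simp, ?_, ?_⟩
          · rw [ds_one]
            refine le_trans (le_of_eq ?_) ha.le
            refine sum_eq_zero fun p hp => ?_
            rw [mem_filter, mem_Ioc] at hp
            have h1 : ∀ j ∈ J, p ∉ B j := by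
              intro j hj hpj
              have h2 := hJ j hj p hpj
              have h3 := (Nat.floor_lt' (by have := hp.2.pos; omega)).1 hp.1.1
              linarith
            rw [UA_prime hp.2, UA_prime hp.2, ext_off _ h1, ext_off _ h1]
            simp
          · rw [ds_one]
            refine (hcon m m' hmm).trans (le_of_eq ?_)
            rw [Nat.floor_zero, Nat.floor_natCast]
            refine sum_congr rfl fun p hp => ?_
            rw [mem_filter] at hp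
            rw [UA_prime hp.2, UA_prime hp.2]) b hb N le_rfl
      exact absurd hm (not_le.2 (hf m)))
  refine ⟨n, hn, c, fun x hx => ?_⟩
  obtain ⟨i, hi⟩ := hc x hx
  refine ⟨i, lt_of_le_of_lt ?_ (not_le.1 hi)⟩
  rw [← sum_biUnion (fun j _ j' _ hjj => hBd j j' hjj)]
  refine sum_le_sum_of_subset_of_nonneg ?_ ?_
  · intro p hp
    rw [mem_biUnion] at hp
    obtain ⟨j, hj, hpj⟩ := hp
    rw [mem_filter, mem_Ioc]
    refine ⟨⟨(hBp j p hpj).pos, ?_⟩, hBp j p hpj⟩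
    have h1 := hJ j hj p hpj
    have h2 : (N : ℝ) ^ a ≤ (N : ℝ) ^ (1 : ℝ) := Real.rpow_le_rpow_of_exponent_le hN1r ha1
    rw [Real.rpow_one] at h2
    exact_mod_cast h1.trans h2
  · intro p _ _
    exact div_nonneg (one_sub_nonneg (ext_norm _ _ _ _) (ext_norm _ _ _ _)) (Nat.cast_nonneg p)

end Pool.H2.BS
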