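import Mathlib
import Pool.Agent.H2.BS.Dat
import Pool.Agent.H2.BS.Fib

/-!
The probability that a scale is bad.
-/

set_option autoImplicit false

open Finset MeasureTheory ProbabilityTheory

namespace Pool.H2.BS

open Pool.H2.EL Pool.H2.MT

variable {Ω : Type} [MeasurableSpace Ω] {μ : Measure Ω}

/-- the fixed values -/
noncomputable def Dat.V (D : Dat Ω μ) (p : ℕ) : ℂ :=
  open Classical in if ∃ j, p ∈ D.B j then 1 else cl (D.v p)

lemma Dat.V_norm (D : Dat Ω μ) (p : ℕ) : ‖D.V p‖ ≤ 1 := by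
  unfold Dat.V
  split_ifs
  · simp
  · exact cl_norm _

/-- the index of the block of a prime -/
noncomputable def Dat.idx (D : Dat Ω μ) (p : ℕ) : ℕ :=
  open Classical in if h : ∃ j, p ∈ D.B j then h.choose else 0

lemma Dat.idx_eq (D : Dat Ω μ) {p j : ℕ} (h : p ∈ D.B j) : D.idx p = j := by
  have h1 : ∃ j, p ∈ D.B j := ⟨j, h⟩
  unfold Dat.idx
  rw [dif_pos h1]
  by_contra h2
  exact (Finset.disjoint_left.1 (D.disj _ _ h2)) h1.choose_spec h

/-- the sum -/
noncomputable def SS {r : ℕ} (E : Frm r) (cc : Fin r → Bool) (w : ℕ → ℂ) (N : ℕ)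
    (f : ℕ → ℂ) : ℂ :=
  ∑ t ∈ range N, w t * ∏ l, cj (cc l) (UA f (E.L l t))

/-- the index set of the remaining blocks -/
noncomputable def Dat.T (D : Dat Ω μ) {r : ℕ} (E : Frm r) (N : ℕ) (J : Finset ℕ) : Finset ℕ :=
  (((range N).biUnion (fun t => (univ : Finset (Fin r)).biUnion
    (fun l => ex (E.L l t)))).image D.idx).filter (fun j => j ∉ J)

lemma Dat.T_disj (D : Dat Ω μ) {r : ℕ} (E : Frm r) (N : ℕ) (J : Finset ℕ) :
    Disjoint (D.T E N J) (J) := by
  rw [Finset.disjoint_left]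
  intro j hj hj2
  unfold Dat.T at hj
  rw [mem_filter] at hj
  exact hj.2 hj2

lemma Dat.split (D : Dat Ω μ) {r : ℕ} (E : Frm r) (N : ℕ) (J : Finset ℕ) (ω : Ω) {t : ℕ} (ht : t < N)
    (l : Fin r) : UA (fun p => D.F p ω) (E.L l t) =
      UA D.V (E.L l t) * UA (ext D.B (D.T E N J) (fun _ q => D.F q ω)) (E.L l t) *
      UA (ext D.B J (fun _ q => D.F q ω)) (E.L l t) := by
  classical
  rw [← UA_mul, ← UA_mul]
  rcases eq_or_ne (E.L l t) 0 with h0 | h0
  · rw [h0, ArithmeticFunction.map_zero, ArithmeticFunction.map_zero]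
  rw [UA_apply h0, UA_apply h0]
  refine prod_congr rfl fun p hp => ?_
  have hbd : ∀ q, ‖D.F q ω‖ ≤ 1 := fun q => D.bd q ω
  by_cases h : ∃ j, p ∈ D.B j
  · obtain ⟨j, hj⟩ := h
    have hV : D.V p = 1 := by
      unfold Dat.V
      rw [if_pos ⟨j, hj⟩]
    rw [hV, one_mul]
    by_cases hjJ : j ∈ J
    · rw [ext_real (f := fun q => D.F q ω) hbd hjJ hj, ext_off, one_mul]
      intro i hi hpi
      have h1 := D.idx_eq hj
      rw [D.idx_eq hpi] at h1
      unfold Dat.T at hi
      rw [mem_filter, h1] at hi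
      exact hi.2 hjJ
    · have hjT : j ∈ D.T E N J := by
        unfold Dat.T
        rw [mem_filter, mem_image]
        refine ⟨⟨p, ?_, D.idx_eq hj⟩, hjJ⟩
        rw [mem_biUnion]
        refine ⟨t, mem_range.2 ht, ?_⟩
        rw [mem_biUnion]
        exact ⟨l, mem_univ _, hp⟩
      rw [ext_real (f := fun q => D.F q ω) hbd hjT hj, ext_off, mul_one]
      intro i hi hpi
      have h1 := D.idx_eq hj
      rw [D.idx_eq hpi] at h1
      rw [h1] at hi
      exact hjJ hi
  · have h1 : ∀ j, p ∉ D.B j := fun j hj => h ⟨j, hj⟩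
    have hv : D.F p ω = D.v p := D.det p h1 ω
    rw [ext_off _ (fun j _ => h1 j), ext_off _ (fun j _ => h1 j), mul_one, mul_one]
    unfold Dat.V
    rw [if_neg h, cl_eq, hv]
    rw [← hv]
    exact hbd p

lemma measurable_UA {α : Type} [MeasurableSpace α] {g : ℕ → α → ℂ} (hg : ∀ p, Measurable (g p))
    (n : ℕ) : Measurable (fun x => UA (fun p => g p x) n) := by
  rcases eq_or_ne n 0 with h0 | h0
  · simp only [h0, ArithmeticFunction.map_zero]
    exact measurable_const
  · simp only [UA_apply h0]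
    exact Finset.measurable_prod _ fun p _ => hg p

lemma measurable_cj (c : Bool) : Measurable (cj c) := by
  unfold cj
  cases c
  · simpa using Complex.continuous_conj.measurable
  · simpa using measurable_id'

theorem Dat.prob [IsProbabilityMeasure μ] (D : Dat Ω μ) {r : ℕ} (hr : 1 ≤ r) (E : Frm r)
    (cc : Fin r → Bool) {ε : ℝ} (hε : 0 < ε) :
    ∃ (M : ℕ) (R a : ℝ) (N₀ : ℕ), 0 < a ∧ a ≤ 1 ∧ ∀ w : ℕ → ℂ, (∀ n, ‖w n‖ ≤ 1) → ∀ N : ℕ,
      N₀ ≤ N → ∀ J : Finset ℕ, (∀ j ∈ J, ∀ p ∈ D.B j, (p : ℝ) ≤ (N : ℝ) ^ a) → ∀ q : ENNReal,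
      (∀ h : ℕ → ℂ, (∀ p, ‖h p‖ ≤ 1) → μ {ω | ∑ j ∈ J, D.d h j ω < R} ≤ q) →
      μ {ω | ε * N < ‖SS E cc w N (fun p => D.F p ω)‖} ≤ M * q := by
  classical
  obtain ⟨M, a, R, N₀, ha, ha1, h⟩ := fib hr E cc hε
  refine ⟨M, R, a, N₀, ha, ha1, fun w hw N hN J hJ q hq => ?_⟩
  obtain ⟨X, hX⟩ : ∃ X : Ω → ((j : J) → (D.B j) → ℂ),
      X = fun ω (j : J) (q : D.B j) => D.F q ω :=
    ⟨fun ω (j : J) (q : D.B j) => D.F q ω, rfl⟩
  obtain ⟨Y, hY⟩ : ∃ Y : Ω → ((j : D.T E N J) → (D.B j) → ℂ),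
      Y = fun ω (j : D.T E N J) (q : D.B j) => D.F q ω :=
    ⟨fun ω (j : D.T E N J) (q : D.B j) => D.F q ω, rfl⟩
  have hXm : Measurable X := by
    rw [hX]
    exact measurable_pi_lambda _ fun j => measurable_pi_lambda _ fun q => D.meas q
  have hYm : Measurable Y := by
    rw [hY]
    exact measurable_pi_lambda _ fun j => measurable_pi_lambda _ fun q => D.meas q
  have hind : IndepFun Y X μ := by
    have h1 := D.ind.indepFun_finset (D.T E N J) J (D.T_disj E N J)
      (fun j => measurable_pi_lambda _ fun q => D.meas q)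
    rw [hX, hY]
    exact h1
  obtain ⟨Z, hZ⟩ : ∃ Z : ((j : D.T E N J) → (D.B j) → ℂ) × ((j : J) → (D.B j) → ℂ) → ℂ,
      Z = fun z => ∑ t ∈ range N, w t * ∏ l, cj (cc l) (UA D.V (E.L l t) *
        UA (ext D.B (D.T E N J) z.1) (E.L l t) * UA (ext D.B J z.2) (E.L l t)) :=
    ⟨_, rfl⟩
  have hZm : Measurable Z := by
    rw [hZ]
    refine Finset.measurable_sum _ fun t _ => ?_
    refine measurable_const.mul ?_
    refine Finset.measurable_prod _ fun l _ => ?_
    refine (measurable_cj _).comp ?_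
    refine Measurable.mul (measurable_const.mul ?_) ?_
    · exact measurable_UA (fun p => (measurable_ext D.B (D.T E N J) p).comp measurable_fst) _
    · exact measurable_UA (fun p => (measurable_ext D.B J p).comp measurable_snd) _
  have hset : {ω | ε * N < ‖SS E cc w N (fun p => D.F p ω)‖} =
      (fun ω => (Y ω, X ω)) ⁻¹' {z | ε * N < ‖Z z‖} := by
    ext ω
    simp only [Set.mem_setOf_eq, Set.mem_preimage]
    have h1 : SS E cc w N (fun p => D.F p ω) = Z (Y ω, X ω) := by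
      rw [hZ, hX, hY]
      unfold SS
      refine sum_congr rfl fun t ht => ?_
      congr 1
      refine prod_congr rfl fun l _ => ?_
      rw [D.split E N J ω (mem_range.1 ht) l]
    rw [h1]
  have hbm : MeasurableSet {z | ε * N < ‖Z z‖} := measurableSet_lt measurable_const hZm.norm
  rw [hset, ← Measure.map_apply (hYm.prodMk hXm) hbm,
    (indepFun_iff_map_prod_eq_prod_map_map hYm.aemeasurable hXm.aemeasurable).1 hind,
    Measure.prod_apply hbm]
  have hfib : ∀ y, (Measure.map X μ) (Prod.mk y ⁻¹' {z | ε * N < ‖Z z‖}) ≤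
      M * q := by
    intro y
    rw [Measure.map_apply hXm (measurable_prodMk_left hbm)]
    obtain ⟨n, hn, c, hc⟩ := h N hN D.B D.prime D.disj J hJ
      (fun t => w t * ∏ l, cj (cc l) (UA D.V (E.L l t) *
        UA (ext D.B (D.T E N J) y) (E.L l t))) (fun t => by
        rw [norm_mul, norm_prod]
        refine mul_le_one₀ (hw t) (prod_nonneg fun _ _ => norm_nonneg _)
          (prod_le_one (fun _ _ => norm_nonneg _) fun l _ => ?_)
        rw [cj_norm, norm_mul]
        exact mul_le_one₀ (UA_norm D.V_norm _) (norm_nonneg _)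
          (UA_norm (fun p => ext_norm _ _ _ p) _))
    have h2 : X ⁻¹' (Prod.mk y ⁻¹' {z | ε * N < ‖Z z‖}) ⊆
        ⋃ i ∈ (univ : Finset (Fin n)),
          {ω | ∑ j ∈ J, D.d (ext D.B J (c i)) j ω < R} := by
      intro ω hω
      simp only [Set.mem_preimage, Set.mem_setOf_eq] at hω
      have h3 : Z (y, X ω) = ∑ t ∈ range N, (w t * ∏ l, cj (cc l) (UA D.V (E.L l t) *
        UA (ext D.B (D.T E N J) y) (E.L l t))) *
        ∏ l, cj (cc l) (UA (ext D.B J (X ω)) (E.L l t)) := by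
        rw [hZ]
        refine sum_congr rfl fun t _ => ?_
        rw [mul_assoc, ← prod_mul_distrib]
        congr 1
        refine prod_congr rfl fun l _ => ?_
        rw [cj_mul]
      rw [h3] at hω
      obtain ⟨i, hi⟩ := hc (X ω) hω
      simp only [Set.mem_iUnion]
      refine ⟨i, mem_univ i, ?_⟩
      rw [Set.mem_setOf_eq]
      refine lt_of_le_of_lt (le_of_eq ?_) hi
      refine sum_congr rfl fun j hj => ?_
      unfold Dat.d
      refine sum_congr rfl fun p hp => ?_
      rw [hX, ext_real (f := fun q => D.F q ω) (fun q => D.bd q ω) hj hp]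
    refine (measure_mono h2).trans ?_
    refine (measure_biUnion_finset_le _ _).trans ?_
    refine (sum_le_sum fun i _ => hq (ext D.B J (c i)) (fun p => ext_norm _ _ _ p)).trans ?_
    rw [sum_const, card_univ, Fintype.card_fin, nsmul_eq_mul]
    refine mul_le_mul_left ?_ _
    exact_mod_cast hn.le
  calc ∫⁻ y, (Measure.map X μ) (Prod.mk y ⁻¹' {z | ε * N < ‖Z z‖}) ∂(Measure.map Y μ)
      ≤ ∫⁻ _y, M * q ∂(Measure.map Y μ) := lintegral_mono hfib
    _ = _ := by
        have := Measure.isProbabilityMeasure_map (μ := μ) hYm.aemeasurable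
        rw [lintegral_const, measure_univ, mul_one]

end Pool.H2.BS
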