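import Mathlib
import Pool.Agent.H2.BS.Prob

/-!
Almost sure convergence: Borel-Cantelli along a lacunary sequence of scales.
-/

set_option autoImplicit false

open Finset MeasureTheory ProbabilityTheory Filter Topology

namespace Pool.H2.BS

open Pool.H2.EL Pool.H2.MT

/-- the scales -/
noncomputable def xs (ε : ℝ) (i : ℕ) : ℕ := ⌈Real.exp (ε * i)⌉₊

lemma xs_pos (ε : ℝ) (i : ℕ) : 1 ≤ xs ε i := Nat.ceil_pos.2 (Real.exp_pos _)

lemma xs_ge (ε : ℝ) (i : ℕ) : Real.exp (ε * i) ≤ xs ε i := Nat.le_ceil _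

lemma xs_tendsto {ε : ℝ} (hε : 0 < ε) : Tendsto (xs ε) atTop atTop := by
  have h1 : Tendsto (fun i : ℕ => Real.exp (ε * i)) atTop atTop :=
    Real.tendsto_exp_atTop.comp (tendsto_natCast_atTop_atTop.const_mul_atTop hε)
  have h2 : Tendsto (fun i : ℕ => ((xs ε i : ℕ) : ℝ)) atTop atTop :=
    tendsto_atTop_mono (xs_ge ε) h1
  exact tendsto_natCast_atTop_iff.1 h2

/-- a scale just below `N` -/
theorem gap {ε : ℝ} (hε : 0 < ε) (i0 : ℕ) : ∃ N₀ : ℕ, ∀ N : ℕ, N₀ ≤ N → ∃ i : ℕ, i0 ≤ i ∧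
    xs ε i ≤ N ∧ (N : ℝ) - xs ε i ≤ ε * N := by
  obtain ⟨N₀, hN₀⟩ := exists_nat_ge (Real.exp (ε * i0))
  refine ⟨max N₀ 1, fun N hN => ?_⟩
  have hN1 : 1 ≤ N := (le_max_right _ _).trans hN
  have hN0 : (N₀ : ℝ) ≤ N := by exact_mod_cast (le_max_left _ _).trans hN
  have hNpos : (0 : ℝ) < N := by exact_mod_cast hN1
  have hlog0 : 0 ≤ Real.log N / ε := div_nonneg (Real.log_natCast_nonneg N) hε.le
  refine ⟨⌊Real.log N / ε⌋₊, ?_, ?_, ?_⟩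
  · rw [Nat.le_floor_iff hlog0, le_div_iff₀ hε, mul_comm, Real.le_log_iff_exp_le hNpos]
    exact hN₀.trans hN0
  · unfold xs
    rw [Nat.ceil_le]
    rw [← Real.le_log_iff_exp_le hNpos]
    have h1 := Nat.floor_le hlog0
    rw [le_div_iff₀ hε] at h1
    linarith
  · have h1 := Nat.lt_floor_add_one (Real.log N / ε)
    rw [div_lt_iff₀ hε] at h1
    have h2 : (N : ℝ) * Real.exp (-ε) ≤ xs ε ⌊Real.log N / ε⌋₊ := by
      refine le_trans ?_ (xs_ge ε _)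
      rw [← Real.exp_log hNpos, ← Real.exp_add]
      refine Real.exp_le_exp.2 ?_
      rw [Real.log_exp]
      linarith
    have h3 : 1 - ε ≤ Real.exp (-ε) := by
      have := Real.add_one_le_exp (-ε)
      linarith
    have h4 : (N : ℝ) * (1 - ε) ≤ N * Real.exp (-ε) := mul_le_mul_of_nonneg_left h3 hNpos.le
    linarith

variable {Ω : Type} [MeasurableSpace Ω] {μ : Measure Ω}

lemma SS_term {r : ℕ} (E : Frm r) (cc : Fin r → Bool) {w : ℕ → ℂ} (hw : ∀ n, ‖w n‖ ≤ 1)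
    {f : ℕ → ℂ} (hf : ∀ p, ‖f p‖ ≤ 1) (t : ℕ) :
    ‖w t * ∏ l, cj (cc l) (UA f (E.L l t))‖ ≤ 1 := by
  rw [norm_mul, norm_prod]
  refine mul_le_one₀ (hw t) (prod_nonneg fun _ _ => norm_nonneg _)
    (prod_le_one (fun _ _ => norm_nonneg _) fun l _ => ?_)
  rw [cj_norm]
  exact UA_norm hf _

theorem SS_gap {r : ℕ} (E : Frm r) (cc : Fin r → Bool) {w : ℕ → ℂ} (hw : ∀ n, ‖w n‖ ≤ 1)
    {f : ℕ → ℂ} (hf : ∀ p, ‖f p‖ ≤ 1) {x N : ℕ} (hx : x ≤ N) :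
    ‖SS E cc w N f‖ ≤ ‖SS E cc w x f‖ + ((N : ℝ) - x) := by
  obtain ⟨s, rfl⟩ : ∃ s, N = x + s := ⟨N - x, by omega⟩
  unfold SS
  rw [sum_range_add]
  refine (norm_add_le _ _).trans (add_le_add_right ?_ _)
  refine (norm_sum_le _ _).trans ((sum_le_sum fun t _ => SS_term E cc hw hf _).trans ?_)
  rw [sum_const, card_range, nsmul_eq_mul, mul_one]
  push_cast
  linarith

/-- slowing down a summable sequence -/
theorem tsum_div {q : ℕ → ℝ} (hq : Summable q) {K : ℕ} (hK : 0 < K) :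
    ∑' k : ℕ, ENNReal.ofReal (q (k / K)) ≠ ⊤ := by
  have : NeZero K := ⟨hK.ne'⟩
  have h1 : ∑' k : ℕ, ENNReal.ofReal (q (k / K)) =
      ∑' z : ℕ × Fin K, ENNReal.ofReal (q z.1) :=
    (Nat.divModEquiv K).tsum_eq (fun z : ℕ × Fin K => ENNReal.ofReal (q z.1))
  rw [h1, ENNReal.tsum_prod']
  have h2 : ∀ i : ℕ, ∑' _r : Fin K, ENNReal.ofReal (q i) = K * ENNReal.ofReal (q i) := by
    intro i
    rw [tsum_fintype, sum_const, card_univ, Fintype.card_fin, nsmul_eq_mul]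
  simp only [h2]
  rw [ENNReal.tsum_mul_left]
  exact ENNReal.mul_ne_top (ENNReal.natCast_ne_top K) hq.tsum_ofReal_ne_top

/-- one precision -/
theorem Dat.bc [IsProbabilityMeasure μ] (D : Dat Ω μ) (hSB : D.SB) {r : ℕ} (hr : 1 ≤ r)
    (E : Frm r) (cc : Fin r → Bool) (w : ℕ → ℂ) (hw : ∀ n, ‖w n‖ ≤ 1) {ε : ℝ} (hε : 0 < ε) :
    ∀ᵐ ω ∂μ, ∃ i0 : ℕ, ∀ i : ℕ, i0 ≤ i →
      ‖SS E cc w (xs ε i) (fun p => D.F p ω)‖ ≤ ε * xs ε i := by
  obtain ⟨M, R, a, N₀, ha, ha1, h⟩ := D.prob hr E cc hε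
  obtain ⟨H, q, hqs, hH, hq⟩ := hSB R
  obtain ⟨K, hK⟩ := exists_nat_ge (1 / (a * ε))
  have haε : 0 < a * ε := mul_pos ha hε
  have hKr : (0 : ℝ) < K := lt_of_lt_of_le (by positivity) hK
  have hKpos : 0 < K := by exact_mod_cast hKr
  obtain ⟨i1, hi1⟩ := eventually_atTop.1 ((xs_tendsto hε).eventually_ge_atTop N₀)
  obtain ⟨S, hS⟩ : ∃ S : ℕ → Set Ω, S = fun i => if i1 ≤ i then
    {ω | ε * xs ε i < ‖SS E cc w (xs ε i) (fun p => D.F p ω)‖} else ∅ := ⟨_, rfl⟩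
  have hbound : ∀ i, μ (S i) ≤ M * ENNReal.ofReal (q (i / K)) := by
    intro i
    rw [hS]
    simp only
    split_ifs with hi
    · refine h w hw (xs ε i) (hi1 i hi) (H (i / K)) ?_ _ (hq (i / K))
      intro j hj p hp
      refine (hH (i / K) j hj p hp).trans ?_
      have hx : (0 : ℝ) < xs ε i := by exact_mod_cast xs_pos ε i
      have h2 : ε * i ≤ Real.log (xs ε i) := by
        rw [Real.le_log_iff_exp_le hx]
        exact xs_ge ε i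
      rw [Real.rpow_def_of_pos hx]
      refine Real.exp_le_exp.2 ?_
      have h3 : ((i / K : ℕ) : ℝ) ≤ (i : ℝ) / K := Nat.cast_div_le
      have h4 : (i : ℝ) / K ≤ a * ε * i := by
        rw [div_le_iff₀ hKr]
        rw [div_le_iff₀ haε] at hK
        have : (0 : ℝ) ≤ i := Nat.cast_nonneg i
        nlinarith
      nlinarith
    · simp
  have htop : ∑' i, μ (S i) ≠ ⊤ := by
    refine ne_top_of_le_ne_top ?_ (ENNReal.tsum_le_tsum hbound)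
    rw [ENNReal.tsum_mul_left]
    exact ENNReal.mul_ne_top (ENNReal.natCast_ne_top M) (tsum_div hqs hKpos)
  filter_upwards [ae_eventually_notMem htop] with ω hω
  obtain ⟨i2, hi2⟩ := eventually_atTop.1 hω
  refine ⟨max i1 i2, fun i hi => ?_⟩
  have h1 := hi2 i ((le_max_right _ _).trans hi)
  rw [hS] at h1
  simp only [if_pos ((le_max_left _ _).trans hi)] at h1
  exact not_lt.1 h1

/-- almost sure convergence -/
theorem Dat.mainU [IsProbabilityMeasure μ] (D : Dat Ω μ) (hSB : D.SB) {r : ℕ} (hr : 1 ≤ r)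
    (E : Frm r) (cc : Fin r → Bool) (w : ℕ → ℂ) (hw : ∀ n, ‖w n‖ ≤ 1) :
    ∀ᵐ ω ∂μ, ∀ ε : ℝ, 0 < ε → ∃ N₀ : ℕ, ∀ N : ℕ, N₀ ≤ N →
      ‖SS E cc w N (fun p => D.F p ω)‖ ≤ ε * N := by
  have h1 : ∀ᵐ ω ∂μ, ∀ k : ℕ, ∃ i0 : ℕ, ∀ i : ℕ, i0 ≤ i →
      ‖SS E cc w (xs (1 / ((k : ℝ) + 1)) i) (fun p => D.F p ω)‖ ≤
        (1 / ((k : ℝ) + 1)) * xs (1 / ((k : ℝ) + 1)) i := by
    rw [ae_all_iff]
    intro k
    exact D.bc hSB hr E cc w hw (by positivity)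
  filter_upwards [h1] with ω hω ε hε
  obtain ⟨k, hk⟩ := exists_nat_ge (2 / ε)
  have hk1 : 1 / ((k : ℝ) + 1) ≤ ε / 2 := by
    rw [div_le_div_iff₀ (by positivity) two_pos]
    rw [div_le_iff₀ hε] at hk
    nlinarith
  obtain ⟨i0, hi0⟩ := hω k
  obtain ⟨N₀, hN₀⟩ := gap (show 0 < 1 / ((k : ℝ) + 1) by positivity) i0
  refine ⟨N₀, fun N hN => ?_⟩
  obtain ⟨i, hi, hiN, hgap⟩ := hN₀ N hN
  have h2 := hi0 i hi
  have h3 := SS_gap E cc hw (f := fun p => D.F p ω) (fun p => D.bd p ω) hiN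
  have h4 : ((xs (1 / ((k : ℝ) + 1)) i : ℕ) : ℝ) ≤ N := by exact_mod_cast hiN
  have h5 : (0 : ℝ) ≤ N := Nat.cast_nonneg N
  have h6 : (1 / ((k : ℝ) + 1)) * (xs (1 / ((k : ℝ) + 1)) i : ℕ) ≤ ε / 2 * N :=
    mul_le_mul hk1 h4 (Nat.cast_nonneg _) (by positivity)
  have h7 : (1 / ((k : ℝ) + 1)) * (N : ℝ) ≤ ε / 2 * N := mul_le_mul_of_nonneg_right hk1 h5
  linarith

end Pool.H2.BS
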