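import Mathlib
import Pool.Agent.H2.BS.Bor
import Pool.Agent.H2.MT.Sqt

/-!
From `UA` to all multiplicative functions with the prescribed values at the primes (copy of `H2/MT/Mnf`).
-/

set_option autoImplicit false

open Finset MeasureTheory Filter Topology

namespace Pool.H2.BS

open Pool.H2.EL Pool.H2.MT

/-- the hypothesis: the sums `SS` are almost surely `o(N)` -/
def HU {Ω : Type} [MeasurableSpace Ω] (μ : Measure Ω) (fv : Ω → ℕ → ℂ) : Prop :=
  ∀ (r : ℕ), 1 ≤ r → ∀ (E : Frm r) (cc : Fin r → Bool) (w : ℕ → ℂ), (∀ n, ‖w n‖ ≤ 1) →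
    ∀ᵐ ω ∂μ, ∀ ε : ℝ, 0 < ε → ∃ N₀ : ℕ, ∀ N : ℕ, N₀ ≤ N → ‖SS E cc w N (fv ω)‖ ≤ ε * N

variable {Ω : Type} [MeasurableSpace Ω] {μ : Measure Ω}

open Classical in
/-- the weight of a tuple of squarefull parts -/
private noncomputable def ws {r : ℕ} (E : Frm r) (w : ℕ → ℂ) (s : Fin r → ℕ) (t : ℕ) : ℂ :=
  if (∀ l, MT.sq (E.L l t) = s l) ∧ 1 ≤ t then w t else 0

private lemma ws_norm {r : ℕ} (E : Frm r) (w : ℕ → ℂ) (hw : ∀ n, ‖w n‖ ≤ 1) (s : Fin r → ℕ)
    (t : ℕ) : ‖ws E w s t‖ ≤ 1 := by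
  unfold ws
  split_ifs
  · exact hw t
  · simp

private lemma term_eq (v : ℕ → ℂ) {r : ℕ} (E : Frm r) (cc : Fin r → Bool)
    (f : ArithmeticFunction ℂ) (hf : f.IsMultiplicative)
    (hp : ∀ p : ℕ, p.Prime → f p = v p) (t : ℕ) (ht : 1 ≤ t) :
    ∏ l, cj (cc l) (f (E.L l t)) = (∏ l, cj (cc l) (f (MT.sq (E.L l t)))) *
      ∏ l, cj (cc l) (UA v (E.L l t)) := by
  rw [← prod_mul_distrib]
  refine prod_congr rfl fun l _ => ?_
  rw [← cj_mul]
  congr 1
  rw [f_sq f hf _ (E.L_pos l ht)]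
  congr 1
  rw [UA_apply (by have := E.L_pos l ht; omega)]
  refine prod_congr rfl fun p hp' => hp p ?_
  unfold ex at hp'
  exact Nat.prime_of_mem_primeFactors (mem_filter.1 hp').1

theorem mainF {fv : Ω → ℕ → ℂ} (hU : HU μ fv) {r : ℕ} (hr : 1 ≤ r) (E : Frm r)
    (cc : Fin r → Bool) (w : ℕ → ℂ) (hw : ∀ n, ‖w n‖ ≤ 1) :
    ∀ᵐ α ∂μ, ∀ δ : ℝ, 0 < δ → ∃ N₀ : ℕ, ∀ N : ℕ, N₀ ≤ N → ∀ f : ArithmeticFunction ℂ,
      f.IsMultiplicative → (∀ n, ‖f n‖ ≤ 1) → (∀ p : ℕ, p.Prime → f p = fv α p) →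
      ∀ x : ℕ, x ≤ N → ‖∑ t ∈ range x, w t * ∏ l, cj (cc l) (f (E.L l t))‖ ≤ δ * N := by
  classical
  have h1 : ∀ᵐ α ∂μ, ∀ s : Fin r → ℕ, ∀ ε : ℝ, 0 < ε → ∃ N₀ : ℕ, ∀ N : ℕ, N₀ ≤ N →
      ‖SS E cc (ws E w s) N (fv α)‖ ≤ ε * N := by
    rw [ae_all_iff]
    intro s
    exact hU r hr E cc (ws E w s) (ws_norm E w hw s)
  filter_upwards [h1] with α hα δ hδ
  -- squarefull tails
  have hε : (0 : ℝ) < δ / (4 * ((r : ℝ) + 1)) := by positivity
  have h2 : ∀ l : Fin r, ∃ S x0 : ℕ, ∀ x : ℕ, x0 ≤ x →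
      (((range x).filter (fun t => 1 ≤ t ∧ S < MT.sq (E.L l t))).card : ℝ) ≤
        δ / (4 * ((r : ℝ) + 1)) * x := fun l => sqt (E.A l) (E.B l) (E.pos l) _ hε
  choose S0 x0 hS0 using h2
  obtain ⟨S, hS⟩ : ∃ S : ℕ, S = ∑ l, S0 l := ⟨_, rfl⟩
  have hSl : ∀ l, S0 l ≤ S := fun l => by
    rw [hS]; exact single_le_sum (f := S0) (fun _ _ => Nat.zero_le _) (mem_univ l)
  -- the finitely many tuples
  have hcard : (0 : ℝ) < 4 * (((S + 1) ^ r : ℕ) : ℝ) := by positivity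
  have h3 : ∀ s : Fin r → Fin (S + 1), ∃ x1 : ℕ, ∀ x : ℕ, x1 ≤ x →
      ‖∑ t ∈ range x, ws E w (fun l => (s l : ℕ)) t * ∏ l, cj (cc l) (UA (fv α) (E.L l t))‖ ≤
        δ / (4 * (((S + 1) ^ r : ℕ) : ℝ)) * x := by
    intro s
    exact hα (fun l => (s l : ℕ)) (δ / (4 * (((S + 1) ^ r : ℕ) : ℝ))) (by positivity)
  choose x1 hx1 using h3
  obtain ⟨X, hX⟩ : ∃ X : ℕ, X = ∑ l, x0 l + ∑ s, x1 s := ⟨_, rfl⟩
  have hX0 : ∀ l, x0 l ≤ X := fun l => by
    have := single_le_sum (f := x0) (fun _ _ => Nat.zero_le _) (mem_univ l)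
    omega
  have hX1 : ∀ s, x1 s ≤ X := fun s => by
    have := single_le_sum (f := x1) (fun _ _ => Nat.zero_le _) (mem_univ s)
    omega
  obtain ⟨N₀, hN₀⟩ := exists_nat_ge (max ((X : ℝ) / δ) (2 / δ))
  refine ⟨N₀, fun N hN f hf hb hp x hxN => ?_⟩
  have hNr : (N₀ : ℝ) ≤ N := by exact_mod_cast hN
  have hNX : (X : ℝ) ≤ δ * N := by
    have := (le_max_left _ _).trans (hN₀.trans hNr)
    rw [div_le_iff₀ hδ] at this
    linarith
  have hN2 : (1 : ℝ) ≤ δ / 2 * N := by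
    have := (le_max_right _ _).trans (hN₀.trans hNr)
    rw [div_le_iff₀ hδ] at this
    linarith
  have hterm : ∀ t, ‖w t * ∏ l, cj (cc l) (f (E.L l t))‖ ≤ 1 := by
    intro t
    rw [norm_mul, norm_prod]
    refine mul_le_one₀ (hw t) (prod_nonneg fun _ _ => norm_nonneg _)
      (prod_le_one (fun _ _ => norm_nonneg _) fun l _ => ?_)
    rw [cj_norm]
    exact hb _
  rcases lt_or_ge x X with hxX | hxX
  · calc ‖∑ t ∈ range x, w t * ∏ l, cj (cc l) (f (E.L l t))‖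
        ≤ ∑ t ∈ range x, ‖w t * ∏ l, cj (cc l) (f (E.L l t))‖ := norm_sum_le _ _
      _ ≤ ∑ t ∈ range x, (1 : ℝ) := sum_le_sum fun t _ => hterm t
      _ = x := by simp
      _ ≤ X := by exact_mod_cast hxX.le
      _ ≤ _ := hNX
  · -- the decomposition
    have hxr : (x : ℝ) ≤ N := by exact_mod_cast hxN
    set G : Finset ℕ := (range x).filter (fun t => 1 ≤ t ∧ ∀ l, MT.sq (E.L l t) ≤ S) with hG
    set Bd : Finset ℕ := (range x).filter (fun t => ¬ (1 ≤ t ∧ ∀ l, MT.sq (E.L l t) ≤ S)) with hBd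
    have hsplit : ∑ t ∈ range x, w t * ∏ l, cj (cc l) (f (E.L l t)) =
        ∑ t ∈ G, w t * ∏ l, cj (cc l) (f (E.L l t)) +
        ∑ t ∈ Bd, w t * ∏ l, cj (cc l) (f (E.L l t)) :=
      (sum_filter_add_sum_filter_not _ _ _).symm
    have hBdc : (Bd.card : ℝ) ≤ 1 + δ / 4 * x := by
      have h6 : Bd ⊆ {0} ∪ univ.biUnion (fun l =>
          (range x).filter (fun t => 1 ≤ t ∧ S0 l < MT.sq (E.L l t))) := by
        intro t ht
        rw [hBd, mem_filter] at ht
        obtain ⟨ht1, ht2⟩ := ht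
        rw [mem_union, mem_singleton, mem_biUnion]
        rcases Nat.eq_zero_or_pos t with h0 | h0
        · left; exact h0
        · right
          by_contra hcon
          apply ht2
          refine ⟨h0, fun l => ?_⟩
          by_contra hl
          apply hcon
          refine ⟨l, mem_univ l, ?_⟩
          rw [mem_filter]
          exact ⟨ht1, h0, (hSl l).trans_lt (not_le.1 hl)⟩
      have h7 : (Bd.card : ℝ) ≤ 1 + ∑ l : Fin r,
          (((range x).filter (fun t => 1 ≤ t ∧ S0 l < MT.sq (E.L l t))).card : ℝ) := by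
        have := (card_le_card h6).trans ((card_union_le _ _).trans
          (add_le_add (le_of_eq (card_singleton 0)) card_biUnion_le))
        exact_mod_cast this
      refine h7.trans ?_
      have h8 : ∑ l : Fin r, (((range x).filter (fun t => 1 ≤ t ∧ S0 l < MT.sq (E.L l t))).card : ℝ) ≤
          ∑ _l : Fin r, δ / (4 * ((r : ℝ) + 1)) * x :=
        sum_le_sum fun l _ => hS0 l x ((hX0 l).trans hxX)
      rw [sum_const, card_univ, Fintype.card_fin, nsmul_eq_mul] at h8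
      have h9 : (r : ℝ) * (δ / (4 * ((r : ℝ) + 1)) * x) ≤ δ / 4 * x := by
        have e1 : (r : ℝ) * (δ / (4 * ((r : ℝ) + 1)) * x) =
            (r : ℝ) / ((r : ℝ) + 1) * (δ / 4 * x) := by
          field_simp
        rw [e1]
        have e2 : (r : ℝ) / ((r : ℝ) + 1) ≤ 1 := by
          rw [div_le_one (by positivity)]
          linarith
        exact mul_le_of_le_one_left (by positivity) e2
      linarith
    have hGs : ∑ t ∈ G, w t * ∏ l, cj (cc l) (f (E.L l t)) =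
        ∑ s : Fin r → Fin (S + 1), (∏ l, cj (cc l) (f (s l : ℕ))) *
          ∑ t ∈ range x, ws E w (fun l => (s l : ℕ)) t * ∏ l, cj (cc l) (UA (fv α) (E.L l t)) := by
      have h10 : ∀ s : Fin r → Fin (S + 1), (∏ l, cj (cc l) (f (s l : ℕ))) *
          ∑ t ∈ range x, ws E w (fun l => (s l : ℕ)) t * ∏ l, cj (cc l) (UA (fv α) (E.L l t)) =
          ∑ t ∈ range x, (∏ l, cj (cc l) (f (s l : ℕ))) *
            (ws E w (fun l => (s l : ℕ)) t * ∏ l, cj (cc l) (UA (fv α) (E.L l t))) :=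
        fun s => mul_sum _ _ _
      rw [sum_congr rfl fun s _ => h10 s, sum_comm, hG, sum_filter]
      refine sum_congr rfl fun t _ => ?_
      split_ifs with hcond
      · obtain ⟨ht1, ht2⟩ := hcond
        rw [sum_eq_single (fun l => (⟨MT.sq (E.L l t), Nat.lt_succ_of_le (ht2 l)⟩ : Fin (S + 1)))]
        · unfold ws
          rw [if_pos ⟨fun l => rfl, ht1⟩, term_eq (fv α) E cc f hf hp t ht1]
          ring
        · intro s _ hs
          unfold ws
          rw [if_neg]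
          · ring
          · rintro ⟨h11, _⟩
            apply hs
            funext l
            exact Fin.ext (h11 l).symm
        · intro h; exact absurd (mem_univ _) h
      · symm
        apply sum_eq_zero
        intro s _
        unfold ws
        rw [if_neg]
        · ring
        · rintro ⟨h11, h12⟩
          apply hcond
          refine ⟨h12, fun l => ?_⟩
          rw [h11 l]
          exact Nat.le_of_lt_succ (s l).2
    have hGn : ‖∑ t ∈ G, w t * ∏ l, cj (cc l) (f (E.L l t))‖ ≤ δ / 4 * x := by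
      rw [hGs]
      refine (norm_sum_le _ _).trans ?_
      have h12 : ∀ s : Fin r → Fin (S + 1), ‖(∏ l, cj (cc l) (f (s l : ℕ))) *
          ∑ t ∈ range x, ws E w (fun l => (s l : ℕ)) t * ∏ l, cj (cc l) (UA (fv α) (E.L l t))‖ ≤
          δ / (4 * (((S + 1) ^ r : ℕ) : ℝ)) * x := by
        intro s
        rw [norm_mul]
        have h13 : ‖∏ l, cj (cc l) (f (s l : ℕ))‖ ≤ 1 := by
          rw [norm_prod]
          refine prod_le_one (fun _ _ => norm_nonneg _) fun l _ => ?_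
          rw [cj_norm]
          exact hb _
        exact (mul_le_of_le_one_left (norm_nonneg _) h13).trans (hx1 s x ((hX1 s).trans hxX))
      refine (sum_le_sum fun s _ => h12 s).trans (le_of_eq ?_)
      rw [sum_const, card_univ, Fintype.card_fun, Fintype.card_fin, Fintype.card_fin, nsmul_eq_mul]
      have : (((S + 1) ^ r : ℕ) : ℝ) ≠ 0 := by positivity
      field_simp
    have hBn : ‖∑ t ∈ Bd, w t * ∏ l, cj (cc l) (f (E.L l t))‖ ≤ 1 + δ / 4 * x := by
      refine (norm_sum_le _ _).trans (le_trans ?_ hBdc)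
      refine (sum_le_sum fun t _ => hterm t).trans (le_of_eq ?_)
      simp
    rw [hsplit]
    refine (norm_add_le _ _).trans ?_
    have : δ / 4 * (x : ℝ) ≤ δ / 4 * N := mul_le_mul_of_nonneg_left hxr (by positivity)
    linarith

end Pool.H2.BS
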