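import Mathlib
import Pool.Agent.H2.BS.Mnf

/-!
All configurations (copy of `H2/MT/Cfg`).
-/

set_option autoImplicit false

open Finset MeasureTheory Filter Topology

namespace Pool.H2.BS

open Pool.H2.EL Pool.H2.MT

variable {Ω : Type} [MeasurableSpace Ω] {μ : Measure Ω}

theorem cfg {fv : Ω → ℕ → ℂ} (hU : HU μ fv) (h0 : ℕ) (w : ℕ → ℂ) (hw : ∀ n, ‖w n‖ ≤ 1) :
    ∀ᵐ α ∂μ, ∀ (H : ℕ) (δ : ℝ), 0 < δ → ∃ N₀ : ℕ, ∀ N : ℕ, N₀ ≤ N → ∀ f : ArithmeticFunction ℂ,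
      f.IsMultiplicative → (∀ n, ‖f n‖ ≤ 1) → (∀ p : ℕ, p.Prime → f p = fv α p) →
      Unc (fun n => w n * f (n + h0)) h0 H N δ := by
  classical
  have h1 : ∀ᵐ α ∂μ, ∀ z : (Σ r : ℕ, (Fin r → ℕ) × (Fin r → ℕ) × (Fin r → Bool)),
      (1 ≤ z.1 ∧ (∀ l, 1 ≤ z.2.1 l) ∧
      (∀ l l', l ≠ l' → z.2.1 l * (z.2.2.1 l' + h0) ≠ z.2.1 l' * (z.2.2.1 l + h0))) →
      ∀ δ : ℝ, 0 < δ → ∃ N₀ : ℕ, ∀ N : ℕ, N₀ ≤ N → ∀ f : ArithmeticFunction ℂ,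
      f.IsMultiplicative → (∀ n, ‖f n‖ ≤ 1) → (∀ p : ℕ, p.Prime → f p = fv α p) →
      ∀ x : ℕ, x ≤ N →
      ‖∑ t ∈ range x, (∏ l, cj (z.2.2.2 l) (w (z.2.1 l * t + z.2.2.1 l))) *
        ∏ l, cj (z.2.2.2 l) (f (z.2.1 l * t + z.2.2.1 l + h0))‖ ≤ δ * N := by
    rw [ae_all_iff]
    rintro ⟨r, A, B, c⟩
    by_cases hv : 1 ≤ r ∧ (∀ l, 1 ≤ A l) ∧
      (∀ l l', l ≠ l' → A l * (B l' + h0) ≠ A l' * (B l + h0))
    · have h2 := mainF hU hv.1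
        ({ A := A, B := fun l => B l + h0, pos := hv.2.1, ne := hv.2.2 } : Frm r) c
        (fun t => ∏ l, cj (c l) (w (A l * t + B l))) (fun t => by
          rw [norm_prod]
          refine prod_le_one (fun _ _ => norm_nonneg _) fun l _ => ?_
          rw [cj_norm]
          exact hw _)
      filter_upwards [h2] with α hα _ δ hδ
      obtain ⟨N₀, hN₀⟩ := hα δ hδ
      refine ⟨N₀, fun N hN f hm hb hp x hx => ?_⟩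
      have h3 := hN₀ N hN f hm hb hp x hx
      simpa only [Frm.L, add_assoc] using h3
    · exact Eventually.of_forall fun ω h => absurd h hv
  filter_upwards [h1] with α hα H δ hδ
  have h2 : ∀ z : (Σ r : Fin (H + 1), (Fin r → Fin (H + 1)) × (Fin r → Fin (H + 1)) × (Fin r → Bool)),
      ∃ N₀ : ℕ, (1 ≤ (z.1 : ℕ) ∧ (∀ l, 1 ≤ (z.2.1 l : ℕ)) ∧
      (∀ l l', l ≠ l' → (z.2.1 l : ℕ) * ((z.2.2.1 l' : ℕ) + h0) ≠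
        (z.2.1 l' : ℕ) * ((z.2.2.1 l : ℕ) + h0))) →
      ∀ N : ℕ, N₀ ≤ N → ∀ f : ArithmeticFunction ℂ,
      f.IsMultiplicative → (∀ n, ‖f n‖ ≤ 1) → (∀ p : ℕ, p.Prime → f p = fv α p) →
      ∀ x : ℕ, x ≤ N →
      ‖∑ t ∈ range x, (∏ l, cj (z.2.2.2 l) (w ((z.2.1 l : ℕ) * t + (z.2.2.1 l : ℕ)))) *
        ∏ l, cj (z.2.2.2 l) (f ((z.2.1 l : ℕ) * t + (z.2.2.1 l : ℕ) + h0))‖ ≤ δ * N := by
    rintro ⟨r, A, B, c⟩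
    by_cases hv : 1 ≤ (r : ℕ) ∧ (∀ l, 1 ≤ (A l : ℕ)) ∧
      (∀ l l', l ≠ l' → (A l : ℕ) * ((B l' : ℕ) + h0) ≠ (A l' : ℕ) * ((B l : ℕ) + h0))
    · obtain ⟨N₀, hN₀⟩ := hα ⟨(r : ℕ), fun l => (A l : ℕ), fun l => (B l : ℕ), c⟩ hv δ hδ
      exact ⟨N₀, fun _ => hN₀⟩
    · exact ⟨0, fun h => absurd h hv⟩
  choose N₀ hN₀ using h2
  refine ⟨∑ z, N₀ z, fun N hN f hm hb hp r hr hrH A B c hA hB hne x hx => ?_⟩
  obtain ⟨z, hz⟩ : ∃ z : (Σ r : Fin (H + 1), (Fin r → Fin (H + 1)) × (Fin r → Fin (H + 1)) ×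
      (Fin r → Bool)), z = ⟨⟨r, by omega⟩, fun l => ⟨A l, by have := (hA l).2; omega⟩,
      fun l => ⟨B l, by have := hB l; omega⟩, c⟩ := ⟨_, rfl⟩
  have h3 : N₀ z ≤ N :=
    (single_le_sum (f := N₀) (fun _ _ => Nat.zero_le _) (mem_univ z)).trans hN
  subst hz
  have h4 := hN₀ _ ⟨hr, fun l => (hA l).1, hne⟩ N h3 f hm hb hp x hx
  refine le_trans (le_of_eq ?_) h4
  congr 1
  refine sum_congr rfl fun t _ => ?_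
  rw [← prod_mul_distrib]
  refine prod_congr rfl fun l _ => ?_
  unfold cj
  split_ifs
  · rfl
  · rw [map_mul]

end Pool.H2.BS
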