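import Mathlib
import Pool.Agent.H2.BS.Det

/-!
The deterministic theorem for tuples with integer shifts.
-/

set_option autoImplicit false

open Finset

namespace Pool.H2.BS

open Pool.H2.EL Pool.H2.MT Pool.Agent.H1.LP

theorem bes (k : ℕ) (h : Fin k → ℤ) (j : Fin k) (hne : ∀ i, i ≠ j → h i ≠ h j) {ε : ℝ}
    (hε : 0 < ε) :
    ∃ (K : ℕ) (a : ℝ), 0 < a ∧ a ≤ 1 ∧ ∀ Q : ℕ, ∃ (D : ℝ) (N₀ : ℕ), ∀ N : ℕ, N₀ ≤ N →
      ∀ ζ : Fin (K + 1) → ArithmeticFunction ℂ, (∀ m, (ζ m).IsMultiplicative) →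
      (∀ m n, ‖ζ m n‖ ≤ 1) → PairOK a Q D N ζ →
      ∀ (S : Finset (Fin k)), j ∉ S → ∀ d : Fin k → ArithmeticFunction ℂ, (∀ x n, ‖d x n‖ ≤ 1) →
      ∃ m, ∀ G : Fin k → ArithmeticFunction ℂ, (∀ x n, ‖G x n‖ ≤ 1) →
      (∀ x ∈ S, (G x).IsMultiplicative) → (∀ x, x ∉ S → x ≠ j → G x = d x) →
      (∀ n, G j n = d j n * ζ m n) →
      ‖(1 / (N : ℂ)) * ∑ n ∈ Icc 1 N, ∏ x, G x ((n : ℤ) + h x).toNat‖ ≤ ε := by
  classical
  rcases k with _ | k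
  · exact j.elim0
  obtain ⟨H, δ, N0, s, hδ, hs, hfin⟩ := fin_core k h j hne ε hε
  obtain ⟨K, a, ha, ha1, hpig⟩ := pig (h j + s).toNat H hδ
  refine ⟨K, a, ha, ha1, fun Q => ?_⟩
  obtain ⟨D, N₀, hpig⟩ := hpig Q
  refine ⟨D, max N0 N₀, fun N hN ζ hm hb hP S hjS d hd => ?_⟩
  obtain ⟨m, hU⟩ := hpig N ((le_max_right _ _).trans hN) ζ hm hb hP
    (fun n => ∏ x ∈ univ \ S, d x (n + (h x + s).toNat)) (fun n => by
      rw [norm_prod]
      exact prod_le_one (fun _ _ => norm_nonneg _) fun x _ => hd x _)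
  refine ⟨m, fun G hG hGS hGd hGj => ?_⟩
  refine hfin N ((le_max_left _ _).trans hN) G S hjS hG hGS ?_
  have h1 : (fun n => ∏ x ∈ univ \ S, G x (n + (h x + s).toNat)) =
      fun n => (∏ x ∈ univ \ S, d x (n + (h x + s).toNat)) * ζ m (n + (h j + s).toNat) := by
    funext n
    have hjm : j ∈ univ \ S := by
      rw [mem_sdiff]
      exact ⟨mem_univ _, hjS⟩
    rw [← mul_prod_erase _ _ hjm, ← mul_prod_erase _ (fun x => d x (n + (h x + s).toNat)) hjm,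
      hGj]
    have h2 : ∏ x ∈ (univ \ S).erase j, G x (n + (h x + s).toNat) =
        ∏ x ∈ (univ \ S).erase j, d x (n + (h x + s).toNat) := by
      refine prod_congr rfl fun x hx => ?_
      rw [mem_erase, mem_sdiff] at hx
      rw [hGd x hx.2.2 hx.1]
    rw [h2]
    ring
  rw [h1]
  exact hU

end Pool.H2.BS
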