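import Mathlib

/-!
Numerical part: the probabilities along a lacunary sequence of scales are summable.
-/

set_option autoImplicit false

open Finset Filter Topology

namespace Pool.H2.BS

theorem poly_geom (m : ℕ) {κ κ' : ℝ} (hκ : 0 < κ) (h : κ < κ') :
    ∃ C : ℝ, 0 < C ∧ ∀ J : ℕ, ((J : ℝ) + 1) ^ m * κ ^ J ≤ C * κ' ^ J := by
  have hκ' : 0 < κ' := hκ.trans h
  have h1 := tendsto_pow_const_mul_const_pow_of_lt_one m (div_nonneg hκ.le hκ'.le)
    ((div_lt_one hκ').2 h)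
  obtain ⟨C, hC⟩ := h1.bddAbove_range
  have hC' : ∀ n : ℕ, (n : ℝ) ^ m * (κ / κ') ^ n ≤ C := fun n => hC ⟨n, rfl⟩
  have hq : 0 < κ / κ' := div_pos hκ hκ'
  refine ⟨(|C| + 1) / (κ / κ'), by positivity, fun J => ?_⟩
  have h2 := hC' (J + 1)
  push_cast at h2
  have h3 : ((J : ℝ) + 1) ^ m * (κ / κ') ^ J ≤ (|C| + 1) / (κ / κ') := by
    rw [le_div_iff₀ hq]
    calc ((J : ℝ) + 1) ^ m * (κ / κ') ^ J * (κ / κ') = ((J : ℝ) + 1) ^ m * (κ / κ') ^ (J + 1) := by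
          rw [pow_succ]; ring
      _ ≤ C := h2
      _ ≤ |C| + 1 := (le_abs_self C).trans (by linarith)
  calc ((J : ℝ) + 1) ^ m * κ ^ J = ((J : ℝ) + 1) ^ m * (κ / κ') ^ J * κ' ^ J := by
        rw [mul_assoc, ← mul_pow, div_mul_cancel₀ _ hκ'.ne']
    _ ≤ _ := mul_le_mul_of_nonneg_right h3 (by positivity)

/-- the number of blocks available at scale `exp (c i)` -/
theorem scales (m : ℕ) {κ θ C c : ℝ} (hκ : 0 < κ) (hθ : 0 < θ) (hκθ : κ * Real.exp θ < 1)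
    (hc : 0 < c) :
    ∃ (J : ℕ → ℕ) (s C1 : ℝ), 1 < s ∧ 0 < C1 ∧
      (∀ i : ℕ, 1 ≤ i → ∀ j < J i, C * Real.exp (θ * j) ≤ c * i) ∧
      ∀ i : ℕ, 1 ≤ i → ((J i : ℝ) + 1) ^ m * κ ^ (J i - m) ≤ C1 * (i : ℝ) ^ (-s) := by
  have he : 0 < Real.exp (-θ) := Real.exp_pos _
  have h1 : κ < Real.exp (-θ) := by
    rw [Real.exp_neg, ← one_div, lt_div_iff₀ (Real.exp_pos θ)]
    exact hκθ
  obtain ⟨κ', hκ1, hκ2⟩ := exists_between h1
  have hκ' : 0 < κ' := hκ.trans hκ1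
  obtain ⟨C2, hC2, hpg⟩ := poly_geom m hκ hκ1
  have hlog : Real.log κ' < -θ := by
    rw [← Real.log_exp (-θ)]
    exact Real.log_lt_log hκ' hκ2
  have hκle : κ ≤ 1 := by
    have : (1 : ℝ) ≤ Real.exp θ := Real.one_le_exp hθ.le
    nlinarith
  obtain ⟨C', hC'⟩ : ∃ C' : ℝ, C' = max C 1 := ⟨_, rfl⟩
  have hC'1 : 1 ≤ C' := by rw [hC']; exact le_max_right _ _
  have hC'C : C ≤ C' := by rw [hC']; exact le_max_left _ _
  have hC'0 : 0 < C' := by linarith
  obtain ⟨L, hL⟩ : ∃ L : ℕ → ℝ, L = fun i : ℕ => Real.log (c * i / C') / θ :=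
    ⟨fun i : ℕ => Real.log (c * i / C') / θ, rfl⟩
  refine ⟨fun i => ⌊L i⌋₊, -Real.log κ' / θ,
    (1 / κ ^ m) * (C2 * ((1 / κ') * (c / C') ^ (Real.log κ' / θ))), ?_, by positivity, ?_, ?_⟩
  · rw [lt_div_iff₀ hθ]
    linarith
  · intro i hi j hj
    have hi' : (0 : ℝ) < i := by exact_mod_cast hi
    have h2 : (j : ℝ) ≤ L i := by
      have h3 : j + 1 ≤ ⌊L i⌋₊ := hj
      have h4 := (Nat.le_floor_iff' (by omega)).1 h3
      push_cast at h4
      linarith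
    have h5 : θ * j ≤ Real.log (c * i / C') := by
      rw [hL] at h2
      simp only at h2
      rw [le_div_iff₀ hθ] at h2
      linarith
    have h6 : Real.exp (θ * j) ≤ c * i / C' := by
      rw [← Real.exp_log (show 0 < c * i / C' by positivity)]
      exact Real.exp_le_exp.2 h5
    calc C * Real.exp (θ * j) ≤ C' * Real.exp (θ * j) :=
          mul_le_mul_of_nonneg_right hC'C (Real.exp_pos _).le
      _ ≤ C' * (c * i / C') := mul_le_mul_of_nonneg_left h6 hC'0.le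
      _ = c * i := by field_simp
  · intro i hi
    have hi' : (0 : ℝ) < i := by exact_mod_cast hi
    have h2 : κ ^ (⌊L i⌋₊ - m) ≤ (1 / κ ^ m) * κ ^ ⌊L i⌋₊ := by
      rw [div_mul_eq_mul_div, one_mul, le_div_iff₀ (by positivity), ← pow_add]
      exact pow_le_pow_of_le_one hκ.le hκle (by omega)
    have h3 : κ' ^ ⌊L i⌋₊ ≤ (1 / κ') * ((c / C') ^ (Real.log κ' / θ) * (i : ℝ) ^ (Real.log κ' / θ)) := by
      have h4 : L i - 1 ≤ (⌊L i⌋₊ : ℝ) := by
        have := Nat.lt_floor_add_one (L i)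
        linarith
      have hκ'1 : κ' ≤ 1 := by
        have : Real.exp (-θ) ≤ 1 := by
          rw [Real.exp_le_one_iff]
          linarith
        linarith
      calc κ' ^ ⌊L i⌋₊ = κ' ^ ((⌊L i⌋₊ : ℕ) : ℝ) := (Real.rpow_natCast _ _).symm
        _ ≤ κ' ^ (L i - 1) := Real.rpow_le_rpow_of_exponent_ge hκ' hκ'1 h4
        _ = (1 / κ') * κ' ^ (L i) := by
            rw [Real.rpow_sub hκ', Real.rpow_one]
            ring
        _ = _ := by
            congr 1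
            rw [← Real.mul_rpow (by positivity) (by positivity), Real.rpow_def_of_pos hκ',
              Real.rpow_def_of_pos (by positivity), hL]
            simp only
            congr 1
            rw [show c / C' * (i : ℝ) = c * i / C' by ring]
            ring
    calc (((⌊L i⌋₊ : ℕ) : ℝ) + 1) ^ m * κ ^ (⌊L i⌋₊ - m)
        ≤ (((⌊L i⌋₊ : ℕ) : ℝ) + 1) ^ m * ((1 / κ ^ m) * κ ^ ⌊L i⌋₊) :=
          mul_le_mul_of_nonneg_left h2 (by positivity)
      _ = (1 / κ ^ m) * ((((⌊L i⌋₊ : ℕ) : ℝ) + 1) ^ m * κ ^ ⌊L i⌋₊) := by ring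
      _ ≤ (1 / κ ^ m) * (C2 * κ' ^ ⌊L i⌋₊) :=
          mul_le_mul_of_nonneg_left (hpg _) (by positivity)
      _ ≤ (1 / κ ^ m) * (C2 * ((1 / κ') * ((c / C') ^ (Real.log κ' / θ) *
          (i : ℝ) ^ (Real.log κ' / θ)))) := by
          refine mul_le_mul_of_nonneg_left ?_ (by positivity)
          exact mul_le_mul_of_nonneg_left h3 hC2.le
      _ = _ := by
          rw [neg_div, neg_neg]
          ring

end Pool.H2.BS
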