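import Mathlib
import Pool.Agent.H2.BS.Dat
import Pool.Agent.H2.BS.Num

/-!
Example: few random bits. If the primes of `B j` are at most `exp (C exp (θ j))`, and for every bounded `h` the
probability that the distance from `h` on the block `B j` is at most `η` is at most `κ`, `κ e^θ < 1`, then the small
ball probabilities are summable.
-/

set_option autoImplicit false

open Finset MeasureTheory ProbabilityTheory

namespace Pool.H2.BS

open Pool.H2.EL Pool.H2.MT

variable {Ω : Type} [MeasurableSpace Ω] {μ : Measure Ω}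

lemma Dat.inter (D : Dat Ω μ) {η κ : ℝ} {h : ℕ → ℂ}
    (hball : ∀ j : ℕ, μ {ω | D.d h j ω ≤ η} ≤ ENNReal.ofReal κ) (S : Finset ℕ) :
    μ {ω | ∀ j ∈ S, D.d h j ω ≤ η} ≤ (ENNReal.ofReal κ) ^ S.card := by
  have h1 := D.ind.measure_inter_preimage_eq_mul S
    (sets := fun j => {x : (D.B j) → ℂ |
      ∑ p : D.B j, (1 - (x p * (starRingEnd ℂ) (h p)).re) / (p : ℝ) ≤ η}) (fun j _ => by
      refine measurableSet_le ?_ measurable_const
      refine Finset.measurable_sum _ fun p _ => ?_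
      refine Measurable.div_const ?_ _
      refine measurable_const.sub ?_
      refine Complex.measurable_re.comp ?_
      exact (measurable_pi_apply p).mul_const _)
  have h2 : ∀ j, (fun ω (p : D.B j) => D.F p ω) ⁻¹' {x : (D.B j) → ℂ |
      ∑ p : D.B j, (1 - (x p * (starRingEnd ℂ) (h p)).re) / (p : ℝ) ≤ η} =
      {ω | D.d h j ω ≤ η} := by
    intro j
    ext ω
    simp only [Set.mem_preimage, Set.mem_setOf_eq, Dat.d]
    rw [← Finset.sum_coe_sort (D.B j)]
  have h3 : {ω | ∀ j ∈ S, D.d h j ω ≤ η} =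
      ⋂ j ∈ S, (fun ω (p : D.B j) => D.F p ω) ⁻¹' {x : (D.B j) → ℂ |
        ∑ p : D.B j, (1 - (x p * (starRingEnd ℂ) (h p)).re) / (p : ℝ) ≤ η} := by
    ext ω
    simp only [h2, Set.mem_setOf_eq, Set.mem_iInter]
  rw [h3, h1]
  calc ∏ j ∈ S, μ ((fun ω (p : D.B j) => D.F p ω) ⁻¹' {x : (D.B j) → ℂ |
        ∑ p : D.B j, (1 - (x p * (starRingEnd ℂ) (h p)).re) / (p : ℝ) ≤ η})
      ≤ ∏ _j ∈ S, ENNReal.ofReal κ := by
        refine prod_le_prod' fun j _ => ?_
        rw [h2]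
        exact hball j
    _ = _ := by rw [prod_const]

/-- the probability of a ball -/
theorem Dat.ballP (D : Dat Ω μ) {η κ : ℝ} (hη : 0 < η) (hκ1 : κ ≤ 1) {h : ℕ → ℂ}
    (hh : ∀ p, ‖h p‖ ≤ 1) (hball : ∀ j : ℕ, μ {ω | D.d h j ω ≤ η} ≤ ENNReal.ofReal κ) (m : ℕ)
    {R : ℝ} (hR : R ≤ m * η) (J : ℕ) :
    μ {ω | ∑ j ∈ range J, D.d h j ω < R} ≤
      (m : ENNReal) * ((J : ENNReal) + 1) ^ m * (ENNReal.ofReal κ) ^ (J - m) := by
  classical
  have hk : ENNReal.ofReal κ ≤ 1 := by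
    rw [ENNReal.ofReal_le_one]
    exact hκ1
  have h1 : {ω | ∑ j ∈ range J, D.d h j ω < R} ⊆
      ⋃ i ∈ range m, ⋃ S ∈ powersetCard i (range J), {ω | ∀ j ∈ range J \ S, D.d h j ω ≤ η} := by
    intro ω hω
    rw [Set.mem_setOf_eq] at hω
    simp only [Set.mem_iUnion]
    refine ⟨((range J).filter (fun j => η < D.d h j ω)).card, ?_,
      (range J).filter (fun j => η < D.d h j ω), ?_, ?_⟩
    · rw [mem_range]
      have h2 : (((range J).filter (fun j => η < D.d h j ω)).card : ℝ) * η ≤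
          ∑ j ∈ range J, D.d h j ω := by
        calc (((range J).filter (fun j => η < D.d h j ω)).card : ℝ) * η
            = ∑ _j ∈ (range J).filter (fun j => η < D.d h j ω), η := by
              rw [sum_const, nsmul_eq_mul]
          _ ≤ ∑ j ∈ (range J).filter (fun j => η < D.d h j ω), D.d h j ω :=
              sum_le_sum fun j hj => (mem_filter.1 hj).2.le
          _ ≤ _ := sum_le_sum_of_subset_of_nonneg (filter_subset _ _)
              fun j _ _ => D.d_nonneg hh j ω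
      have h3 : (((range J).filter (fun j => η < D.d h j ω)).card : ℝ) * η < m * η := by
        linarith
      have h4 := lt_of_mul_lt_mul_right h3 hη.le
      exact_mod_cast h4
    · rw [mem_powersetCard]
      exact ⟨filter_subset _ _, rfl⟩
    · rw [Set.mem_setOf_eq]
      intro j hj
      rw [mem_sdiff, mem_filter, not_and] at hj
      exact not_lt.1 (hj.2 hj.1)
  refine (measure_mono h1).trans ?_
  refine (measure_biUnion_finset_le _ _).trans ?_
  have h5 : ∀ i ∈ range m, μ (⋃ S ∈ powersetCard i (range J),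
      {ω | ∀ j ∈ range J \ S, D.d h j ω ≤ η}) ≤
      ((J : ENNReal) + 1) ^ m * (ENNReal.ofReal κ) ^ (J - m) := by
    intro i hi
    rw [mem_range] at hi
    refine (measure_biUnion_finset_le _ _).trans ?_
    have h6 : ∀ S ∈ powersetCard i (range J), μ {ω | ∀ j ∈ range J \ S, D.d h j ω ≤ η} ≤
        (ENNReal.ofReal κ) ^ (J - m) := by
      intro S hS
      rw [mem_powersetCard] at hS
      refine (D.inter hball _).trans ?_
      rw [card_sdiff_of_subset hS.1, card_range, hS.2]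
      exact pow_le_pow_of_le_one (zero_le) hk (by omega)
    refine (sum_le_sum h6).trans ?_
    rw [sum_const, card_powersetCard, card_range, nsmul_eq_mul]
    refine mul_le_mul_left ?_ _
    have h7 : J.choose i ≤ (J + 1) ^ m := by
      refine (Nat.choose_le_pow J i).trans ?_
      refine (Nat.pow_le_pow_left (Nat.le_succ J) i).trans ?_
      exact Nat.pow_le_pow_right (Nat.succ_pos J) hi.le
    calc ((J.choose i : ℕ) : ENNReal) ≤ (((J + 1) ^ m : ℕ) : ENNReal) := by exact_mod_cast h7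
      _ = _ := by push_cast; rfl
  refine (sum_le_sum h5).trans ?_
  rw [sum_const, card_range, nsmul_eq_mul, mul_assoc]

/-- few random bits -/
theorem Dat.SB_of_blocks [IsProbabilityMeasure μ] (D : Dat Ω μ) {θ C η κ : ℝ} (hθ : 0 < θ)
    (hη : 0 < η) (hκ : κ * Real.exp θ < 1)
    (hsize : ∀ j, ∀ p ∈ D.B j, (p : ℝ) ≤ Real.exp (C * Real.exp (θ * j)))
    (hball : ∀ (j : ℕ) (h : ℕ → ℂ), (∀ p, ‖h p‖ ≤ 1) →
      μ {ω | D.d h j ω ≤ η} ≤ ENNReal.ofReal κ) : D.SB := by
  intro R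
  -- a positive constant
  obtain ⟨κ', hκ'0, hκκ', hκ'θ⟩ : ∃ κ' : ℝ, 0 < κ' ∧ κ ≤ κ' ∧ κ' * Real.exp θ < 1 := by
    refine ⟨max κ (Real.exp (-θ) / 2), lt_max_of_lt_right (by positivity), le_max_left _ _, ?_⟩
    rcases max_cases κ (Real.exp (-θ) / 2) with ⟨h1, _⟩ | ⟨h1, _⟩
    · rw [h1]; exact hκ
    · rw [h1, div_mul_eq_mul_div, ← Real.exp_add]
      norm_num
  have hκ'1 : κ' ≤ 1 := by
    have h1 : (1 : ℝ) ≤ Real.exp θ := Real.one_le_exp hθ.le
    nlinarith
  obtain ⟨m, hm⟩ := exists_nat_ge (R / η)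
  rw [div_le_iff₀ hη] at hm
  obtain ⟨J, s, C1, hs, hC1, hJ1, hJ2⟩ := scales m (C := C) hκ'0 hθ hκ'θ one_pos
  refine ⟨fun i => if i = 0 then ∅ else range (J i),
    fun i => if i = 0 then 1 else m * (C1 * (i : ℝ) ^ (-s)), ?_, ?_, ?_⟩
  · have h1 : Summable (fun i : ℕ => (m : ℝ) * (C1 * (i : ℝ) ^ (-s))) :=
      ((Real.summable_nat_rpow.2 (by linarith)).mul_left C1).mul_left (m : ℝ)
    refine (summable_nat_add_iff 1).1 ?_
    have h2 := (summable_nat_add_iff 1).2 h1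
    refine h2.congr fun i => ?_
    rw [if_neg (by omega)]
  · intro i j hj p hp
    simp only at hj
    by_cases hi : i = 0
    · simp [hi] at hj
    · rw [if_neg hi, mem_range] at hj
      refine (hsize j p hp).trans (Real.exp_le_exp.2 ?_)
      have := hJ1 i (by omega) j hj
      linarith
  · intro i h hh
    by_cases hi : i = 0
    · simp only [hi, if_true]
      rw [ENNReal.ofReal_one]
      exact prob_le_one
    · simp only [if_neg hi]
      refine (D.ballP hη hκ'1 hh (fun j => (hball j h hh).trans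
        (ENNReal.ofReal_le_ofReal hκκ')) m hm (J i)).trans ?_
      have h3 : (m : ENNReal) * (((J i : ℕ) : ENNReal) + 1) ^ m *
          (ENNReal.ofReal κ') ^ (J i - m) =
          ENNReal.ofReal (m * ((((J i : ℕ) : ℝ) + 1) ^ m * κ' ^ (J i - m))) := by
        rw [ENNReal.ofReal_mul (by positivity), ENNReal.ofReal_mul (by positivity),
          ENNReal.ofReal_pow (by positivity), ENNReal.ofReal_pow hκ'0.le,
          ENNReal.ofReal_natCast, ENNReal.ofReal_add (by positivity) (by positivity),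
          ENNReal.ofReal_natCast, ENNReal.ofReal_one, mul_assoc]
      rw [h3]
      refine ENNReal.ofReal_le_ofReal ?_
      exact mul_le_mul_of_nonneg_left (hJ2 i (by omega)) (Nat.cast_nonneg _)

/-- one random number with small concentration for every block -/
theorem ball_mult {B : Finset ℕ} {v : ℕ → ℂ} (hv : ∀ p, ‖v p‖ ≤ 1) {Z : Ω → ℂ}
    (hZ : ∀ ω, ‖Z ω‖ ≤ 1) {c ρ κ : ℝ} (hc : 0 < c) (hρ : 0 < ρ)
    (hmass : c ≤ ∑ p ∈ B, 1 / (p : ℝ))
    (hball : ∀ z : ℂ, μ {ω | ‖Z ω - z‖ ≤ ρ} ≤ ENNReal.ofReal κ) (h : ℕ → ℂ)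
    (hh : ∀ p, ‖h p‖ ≤ 1) :
    μ {ω | ∑ p ∈ B, (1 - (Z ω * v p * (starRingEnd ℂ) (h p)).re) / (p : ℝ) ≤ c * ρ ^ 2 / 16} ≤
      ENNReal.ofReal κ := by
  by_cases hex : ∃ ω0, ∑ p ∈ B, (1 - (Z ω0 * v p * (starRingEnd ℂ) (h p)).re) / (p : ℝ) ≤
      c * ρ ^ 2 / 16
  · obtain ⟨ω0, hω0⟩ := hex
    refine (measure_mono ?_).trans (hball (Z ω0))
    intro ω hω
    simp only [Set.mem_setOf_eq] at hω ⊢
    by_contra hcon
    rw [not_le] at hcon
    -- pointwise lower bound
    have key : ∀ p : ℕ, ρ ^ 2 / 4 < (1 - (Z ω * v p * (starRingEnd ℂ) (h p)).re) +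
        (1 - (Z ω0 * v p * (starRingEnd ℂ) (h p)).re) := by
      intro p
      obtain ⟨u, hu⟩ : ∃ u : ℂ, u = v p * (starRingEnd ℂ) (h p) := ⟨_, rfl⟩
      have hu1 : ‖u‖ ≤ 1 := by
        rw [hu, norm_mul, RCLike.norm_conj]
        exact mul_le_one₀ (hv p) (norm_nonneg _) (hh p)
      have e1 : (Z ω * v p * (starRingEnd ℂ) (h p)).re +
          (Z ω0 * v p * (starRingEnd ℂ) (h p)).re = ((Z ω + Z ω0) * u).re := by
        rw [hu, ← Complex.add_re]
        congr 1
        ring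
      have e2 : ((Z ω + Z ω0) * u).re ≤ ‖Z ω + Z ω0‖ := by
        refine (le_abs_self _).trans ((Complex.abs_re_le_norm _).trans ?_)
        rw [norm_mul]
        exact mul_le_of_le_one_right (norm_nonneg _) hu1
      have e3 : ‖Z ω + Z ω0‖ ^ 2 + ‖Z ω - Z ω0‖ ^ 2 = 2 * (‖Z ω‖ ^ 2 + ‖Z ω0‖ ^ 2) := by
        have := parallelogram_law_with_norm ℝ (Z ω) (Z ω0)
        nlinarith
      have e4 : ‖Z ω‖ ^ 2 ≤ 1 := pow_le_one₀ (norm_nonneg _) (hZ ω)
      have e5 : ‖Z ω0‖ ^ 2 ≤ 1 := pow_le_one₀ (norm_nonneg _) (hZ ω0)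
      have e6 : ρ ^ 2 < ‖Z ω - Z ω0‖ ^ 2 := pow_lt_pow_left₀ hcon hρ.le two_ne_zero
      have e7 : ‖Z ω + Z ω0‖ ^ 2 < 4 - ρ ^ 2 := by linarith
      have e8 : ρ ^ 2 < 4 := by
        have := sq_nonneg (‖Z ω + Z ω0‖)
        linarith
      have e9 : ‖Z ω + Z ω0‖ < 2 - ρ ^ 2 / 4 := by
        refine lt_of_pow_lt_pow_left₀ 2 (by linarith) ?_
        nlinarith [sq_nonneg (ρ ^ 2)]
      linarith
    have hsum : c * (ρ ^ 2 / 4) ≤
        ∑ p ∈ B, ((1 - (Z ω * v p * (starRingEnd ℂ) (h p)).re) / (p : ℝ) +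
          (1 - (Z ω0 * v p * (starRingEnd ℂ) (h p)).re) / (p : ℝ)) := by
      calc c * (ρ ^ 2 / 4) ≤ (∑ p ∈ B, 1 / (p : ℝ)) * (ρ ^ 2 / 4) :=
            mul_le_mul_of_nonneg_right hmass (by positivity)
        _ = ∑ p ∈ B, 1 / (p : ℝ) * (ρ ^ 2 / 4) := sum_mul _ _ _
        _ ≤ _ := by
            refine sum_le_sum fun p _ => ?_
            rw [← add_div, one_div_mul_eq_div]
            exact div_le_div_of_nonneg_right (key p).le (Nat.cast_nonneg p)
    rw [sum_add_distrib] at hsum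
    have : 0 < c * ρ ^ 2 := by positivity
    linarith
  · push Not at hex
    have h1 : {ω | ∑ p ∈ B, (1 - (Z ω * v p * (starRingEnd ℂ) (h p)).re) / (p : ℝ) ≤
        c * ρ ^ 2 / 16} = ∅ := by
      ext ω
      simp only [Set.mem_setOf_eq, Set.mem_empty_iff_false, iff_false, not_le]
      exact hex ω
    rw [h1, measure_empty]
    exact zero_le

end Pool.H2.BS
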