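import Mathlib
import Pool.Agent.H2.BS.Dat

/-!
Example: independent values. If `F p` are independent and the sum of `(1 - ‖E F p‖) / p` over the primes
`log i < p ≤ exp i` tends to infinity with `i`, the small ball probabilities are summable.
-/

set_option autoImplicit false

open Finset MeasureTheory ProbabilityTheory Filter Topology

namespace Pool.H2.BS

open Pool.H2.EL Pool.H2.MT

variable {Ω : Type} [MeasurableSpace Ω] {μ : Measure Ω}

lemma exp_neg_le_half {u : ℝ} (h0 : 0 ≤ u) (h1 : u ≤ 1) : Real.exp (-u) ≤ 1 - u / 2 := by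
  have h2 : 1 + u ≤ Real.exp u := by
    have := Real.add_one_le_exp u
    linarith
  have h3 : Real.exp (-u) * Real.exp u = 1 := by rw [← Real.exp_add]; simp
  have h4 : 0 < Real.exp (-u) := Real.exp_pos _
  have h5 : Real.exp (-u) * (1 + u) ≤ 1 := by nlinarith
  have h6 : 1 ≤ (1 - u / 2) * (1 + u) := by nlinarith
  have h7 : Real.exp (-u) * (1 + u) ≤ (1 - u / 2) * (1 + u) := h5.trans h6
  exact le_of_mul_le_mul_right h7 (by linarith)

/-- the distance at one prime -/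
noncomputable def X1 (F : ℕ → Ω → ℂ) (h : ℕ → ℂ) (p : ℕ) (ω : Ω) : ℝ :=
  (1 - (F p ω * (starRingEnd ℂ) (h p)).re) / (p : ℝ)

lemma re_bd {z w : ℂ} (hz : ‖z‖ ≤ 1) (hw : ‖w‖ ≤ 1) :
    0 ≤ 1 - (z * (starRingEnd ℂ) w).re ∧ 1 - (z * (starRingEnd ℂ) w).re ≤ 2 := by
  have h1 : ‖z * (starRingEnd ℂ) w‖ ≤ 1 := by
    rw [norm_mul, RCLike.norm_conj]
    exact mul_le_one₀ hz (norm_nonneg _) hw
  have h2 := abs_le.1 ((Complex.abs_re_le_norm (z * (starRingEnd ℂ) w)).trans h1)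
  constructor <;> linarith [h2.1, h2.2]

omit [MeasurableSpace Ω] in
lemma X1_nonneg {F : ℕ → Ω → ℂ} (hF : ∀ p ω, ‖F p ω‖ ≤ 1) {h : ℕ → ℂ} (hh : ∀ p, ‖h p‖ ≤ 1)
    (p : ℕ) (ω : Ω) : 0 ≤ X1 F h p ω :=
  div_nonneg (re_bd (hF p ω) (hh p)).1 (Nat.cast_nonneg p)

lemma X1_meas {F : ℕ → Ω → ℂ} (hm : ∀ p, Measurable (F p)) (h : ℕ → ℂ) (p : ℕ) :
    Measurable (X1 F h p) := by
  unfold X1
  exact (measurable_const.sub (Complex.measurable_re.comp ((hm p).mul_const _))).div_const _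

lemma mgf_le_one [IsProbabilityMeasure μ] {F : ℕ → Ω → ℂ} (hF : ∀ p ω, ‖F p ω‖ ≤ 1)
    {h : ℕ → ℂ} (hh : ∀ p, ‖h p‖ ≤ 1) (p : ℕ) {s : ℝ} (hs : 0 ≤ s) :
    mgf (X1 F h p) μ (-s) ≤ 1 := by
  unfold mgf
  calc ∫ ω, Real.exp (-s * X1 F h p ω) ∂μ ≤ ∫ _ω, (1 : ℝ) ∂μ := by
        refine integral_mono_of_nonneg (Eventually.of_forall fun ω => (Real.exp_pos _).le)
          (integrable_const _) (Eventually.of_forall fun ω => ?_)
        rw [Real.exp_le_one_iff]
        have := mul_nonneg hs (X1_nonneg hF hh p ω)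
        linarith
    _ = 1 := by simp

lemma mgf_le [IsProbabilityMeasure μ] {F : ℕ → Ω → ℂ} (hm : ∀ p, Measurable (F p))
    (hF : ∀ p ω, ‖F p ω‖ ≤ 1)
    {h : ℕ → ℂ} (hh : ∀ p, ‖h p‖ ≤ 1) {p : ℕ} {s : ℝ} (hs : 0 ≤ s) (hsp : 2 * s ≤ p)
    (hp : 0 < p) :
    mgf (X1 F h p) μ (-s) ≤ Real.exp (-(s / 2 * ((1 - ‖∫ ω, F p ω ∂μ‖) / p))) := by
  have hpr : (0 : ℝ) < p := by exact_mod_cast hp
  have hint : Integrable (F p) μ :=
    Integrable.of_bound (hm p).aestronglyMeasurable 1 (Eventually.of_forall fun ω => hF p ω)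
  have hint2 : Integrable (fun ω => F p ω * (starRingEnd ℂ) (h p)) μ := hint.mul_const _
  have hint3 : Integrable (fun ω => (F p ω * (starRingEnd ℂ) (h p)).re) μ := hint2.re
  have hint4 : Integrable (X1 F h p) μ := by
    unfold X1
    exact ((integrable_const _).sub hint3).div_const _
  have h1 : mgf (X1 F h p) μ (-s) ≤ 1 - s / 2 * ∫ ω, X1 F h p ω ∂μ := by
    unfold mgf
    calc ∫ ω, Real.exp (-s * X1 F h p ω) ∂μ ≤ ∫ ω, (1 - s / 2 * X1 F h p ω) ∂μ := by
          refine integral_mono_of_nonneg (Eventually.of_forall fun ω => (Real.exp_pos _).le)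
            ((integrable_const _).sub (hint4.const_mul _)) (Eventually.of_forall fun ω => ?_)
          have h2 : 0 ≤ s * X1 F h p ω := mul_nonneg hs (X1_nonneg hF hh p ω)
          have h3 : s * X1 F h p ω ≤ 1 := by
            unfold X1
            rw [← mul_div_assoc, div_le_one hpr]
            have h4 := (re_bd (hF p ω) (hh p)).2
            nlinarith
          have h5 := exp_neg_le_half h2 h3
          simp only
          rw [neg_mul]
          linarith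
      _ = 1 - s / 2 * ∫ ω, X1 F h p ω ∂μ := by
          rw [integral_sub (integrable_const _) (hint4.const_mul _), integral_const_mul]
          simp
  have h2 : (1 - ‖∫ ω, F p ω ∂μ‖) / p ≤ ∫ ω, X1 F h p ω ∂μ := by
    unfold X1
    rw [integral_div, integral_sub (integrable_const _) hint3]
    have h3 : ∫ ω, (F p ω * (starRingEnd ℂ) (h p)).re ∂μ =
        ((∫ ω, F p ω ∂μ) * (starRingEnd ℂ) (h p)).re := by
      rw [← integral_mul_const]
      exact integral_re hint2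
    rw [h3]
    have h4 : ((∫ ω, F p ω ∂μ) * (starRingEnd ℂ) (h p)).re ≤ ‖∫ ω, F p ω ∂μ‖ := by
      refine (le_abs_self _).trans ((Complex.abs_re_le_norm _).trans ?_)
      rw [norm_mul, RCLike.norm_conj]
      exact mul_le_of_le_one_right (norm_nonneg _) (hh p)
    have h5 : ∫ _ω : Ω, (1 : ℝ) ∂μ = 1 := by simp
    rw [h5]
    gcongr
  refine h1.trans ?_
  have h3 : s / 2 * ((1 - ‖∫ ω, F p ω ∂μ‖) / p) ≤ s / 2 * ∫ ω, X1 F h p ω ∂μ :=
    mul_le_mul_of_nonneg_left h2 (by linarith)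
  have h4 := Real.add_one_le_exp (-(s / 2 * ((1 - ‖∫ ω, F p ω ∂μ‖) / p)))
  linarith

/-- Chernoff bound -/
theorem chernoff [IsProbabilityMeasure μ] {F : ℕ → Ω → ℂ} (hm : ∀ p, Measurable (F p))
    (hF : ∀ p ω, ‖F p ω‖ ≤ 1) (hind : iIndepFun F μ)
    {h : ℕ → ℂ} (hh : ∀ p, ‖h p‖ ≤ 1) {s R T : ℝ} (hs : 0 ≤ s) (S S' : Finset ℕ) (hS : S' ⊆ S)
    (hS' : ∀ p ∈ S', 0 < p ∧ 2 * s ≤ p)
    (hT : T ≤ ∑ p ∈ S', (1 - ‖∫ ω, F p ω ∂μ‖) / p) :
    μ {ω | ∑ p ∈ S, X1 F h p ω < R} ≤ ENNReal.ofReal (Real.exp (s * R - s / 2 * T)) := by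
  classical
  have hX : iIndepFun (X1 F h) μ := by
    have := hind.comp (fun p z => (1 - (z * (starRingEnd ℂ) (h p)).re) / (p : ℝ)) (fun p => by
      exact (measurable_const.sub (Complex.measurable_re.comp
        (measurable_id.mul_const _))).div_const _)
    exact this
  have hXm : ∀ p, Measurable (X1 F h p) := X1_meas hm h
  have hsumm : Measurable (∑ p ∈ S, X1 F h p) := by
    have e1 : (∑ p ∈ S, X1 F h p) = fun ω => ∑ p ∈ S, X1 F h p ω := by
      funext ω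
      rw [Finset.sum_apply]
    rw [e1]
    exact Finset.measurable_sum _ fun p _ => hXm p
  have hnn : ∀ ω, 0 ≤ (∑ p ∈ S, X1 F h p) ω := by
    intro ω
    rw [Finset.sum_apply]
    exact sum_nonneg fun p _ => X1_nonneg hF hh p ω
  have hint : Integrable (fun ω => Real.exp (-s * (∑ p ∈ S, X1 F h p) ω)) μ := by
    refine Integrable.of_bound (by fun_prop) 1 (Eventually.of_forall fun ω => ?_)
    rw [Real.norm_of_nonneg (Real.exp_pos _).le, Real.exp_le_one_iff]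
    have := mul_nonneg hs (hnn ω)
    linarith
  have h1 := measure_le_le_exp_mul_mgf (μ := μ) (X := ∑ p ∈ S, X1 F h p) R
    (t := -s) (by linarith) hint
  rw [hX.mgf_sum hXm] at h1
  have h2 : ∏ p ∈ S, mgf (X1 F h p) μ (-s) ≤ Real.exp (-(s / 2 * T)) := by
    rw [← prod_sdiff hS]
    have h3 : ∏ p ∈ S \ S', mgf (X1 F h p) μ (-s) ≤ 1 :=
      prod_le_one (fun p _ => mgf_nonneg) fun p _ => mgf_le_one hF hh p hs
    have h4 : ∏ p ∈ S', mgf (X1 F h p) μ (-s) ≤ Real.exp (-(s / 2 * T)) := by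
      calc ∏ p ∈ S', mgf (X1 F h p) μ (-s)
          ≤ ∏ p ∈ S', Real.exp (-(s / 2 * ((1 - ‖∫ ω, F p ω ∂μ‖) / p))) :=
            prod_le_prod (fun p _ => mgf_nonneg) fun p hp =>
              mgf_le hm hF hh hs (hS' p hp).2 (hS' p hp).1
        _ = Real.exp (-(s / 2 * ∑ p ∈ S', (1 - ‖∫ ω, F p ω ∂μ‖) / p)) := by
            rw [← Real.exp_sum, mul_sum, sum_neg_distrib]
        _ ≤ _ := by
            refine Real.exp_le_exp.2 ?_
            have := mul_le_mul_of_nonneg_left hT (show 0 ≤ s / 2 by linarith)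
            linarith
    calc (∏ p ∈ S \ S', mgf (X1 F h p) μ (-s)) * ∏ p ∈ S', mgf (X1 F h p) μ (-s)
        ≤ 1 * Real.exp (-(s / 2 * T)) :=
          mul_le_mul h3 h4 (prod_nonneg fun p _ => mgf_nonneg) zero_le_one
      _ = _ := one_mul _
  have h5 : μ.real {ω | (∑ p ∈ S, X1 F h p) ω ≤ R} ≤ Real.exp (s * R - s / 2 * T) := by
    refine h1.trans ?_
    calc Real.exp (- -s * R) * ∏ p ∈ S, mgf (X1 F h p) μ (-s)
        ≤ Real.exp (- -s * R) * Real.exp (-(s / 2 * T)) :=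
          mul_le_mul_of_nonneg_left h2 (Real.exp_pos _).le
      _ = _ := by
          rw [← Real.exp_add]
          congr 1
          ring
  have h6 : μ {ω | (∑ p ∈ S, X1 F h p) ω ≤ R} ≤
      ENNReal.ofReal (Real.exp (s * R - s / 2 * T)) := by
    rw [← ENNReal.ofReal_toReal (measure_ne_top μ _)]
    exact ENNReal.ofReal_le_ofReal h5
  refine le_trans (measure_mono ?_) h6
  intro ω hω
  simp only [Set.mem_setOf_eq, Finset.sum_apply] at hω ⊢
  exact hω.le

end Pool.H2.BS
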