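import Mathlib
import Pool.Agent.H2.BS.ExInd

/-!
Example, continued: the small ball condition for independent values.
-/

set_option autoImplicit false

open Finset MeasureTheory ProbabilityTheory Filter Topology

namespace Pool.H2.BS

open Pool.H2.EL Pool.H2.MT

variable {Ω : Type} [MeasurableSpace Ω] {μ : Measure Ω}

/-- one block for every prime -/
def Bp (j : ℕ) : Finset ℕ := if j.Prime then {j} else ∅

lemma mem_Bp {j p : ℕ} : p ∈ Bp j ↔ j.Prime ∧ p = j := by
  unfold Bp
  split_ifs with h <;> simp [h]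

/-- the data of independent values -/
def ofInd (F : ℕ → Ω → ℂ) (hm : ∀ p, Measurable (F p)) (hF : ∀ p ω, ‖F p ω‖ ≤ 1)
    (hc : ∀ p, ¬ p.Prime → ∀ ω, F p ω = 0) (hind : iIndepFun F μ) : Dat Ω μ where
  B := Bp
  F := F
  v := fun _ => 0
  prime := fun j p hp => by
    rw [mem_Bp] at hp
    rw [hp.2]
    exact hp.1
  disj := fun i j hij => by
    rw [Finset.disjoint_left]
    intro p hp hp'
    rw [mem_Bp] at hp hp'
    exact hij (hp.2.symm.trans hp'.2)
  meas := hm
  bd := hF
  det := fun p hp ω => by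
    refine hc p (fun hpp => hp p ?_) ω
    rw [mem_Bp]
    exact ⟨hpp, rfl⟩
  ind := by
    have h1 := hind.comp (fun j (z : ℂ) (_ : Bp j) => z)
      (fun j => measurable_pi_lambda _ fun _ => measurable_id)
    have h2 : (fun j ω (p : Bp j) => F p ω) = fun j => (fun (z : ℂ) (_ : Bp j) => z) ∘ F j := by
      funext j ω p
      have := (mem_Bp.1 p.2).2
      simp only [Function.comp_apply, this]
    rw [h2]
    exact h1

lemma log_le_half (i : ℕ) (hi : 1 ≤ i) : Real.log i ≤ i := by
  have := Real.log_le_sub_one_of_pos (show (0 : ℝ) < i by exact_mod_cast hi)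
  linarith

/-- the small ball condition -/
theorem ofInd_SB [IsProbabilityMeasure μ] (F : ℕ → Ω → ℂ) (hm : ∀ p, Measurable (F p))
    (hF : ∀ p ω, ‖F p ω‖ ≤ 1) (hc : ∀ p, ¬ p.Prime → ∀ ω, F p ω = 0) (hind : iIndepFun F μ)
    (hdiv : ∀ T : ℝ, ∃ i0 : ℕ, ∀ i : ℕ, i0 ≤ i →
      T ≤ ∑ p ∈ (Ioc ⌊Real.log i⌋₊ ⌊Real.exp i⌋₊).filter Nat.Prime,
        (1 - ‖∫ ω, F p ω ∂μ‖) / p) :
    (ofInd F hm hF hc hind).SB := by
  classical
  intro R
  obtain ⟨R', hR'⟩ : ∃ R' : ℝ, R' = max R 1 := ⟨_, rfl⟩
  have hRR' : R ≤ R' := by rw [hR']; exact le_max_left _ _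
  have hR'1 : 1 ≤ R' := by rw [hR']; exact le_max_right _ _
  obtain ⟨i0, hi0⟩ := hdiv (4 * R' + 4)
  obtain ⟨H, hH⟩ : ∃ H : ℕ → Finset ℕ,
      H = fun i : ℕ => (Ioc 0 ⌊Real.exp i⌋₊).filter Nat.Prime := ⟨_, rfl⟩
  refine ⟨H, fun i => if i < i0 + 3 then 1 else (i : ℝ) ^ (-2 : ℝ), ?_, ?_, ?_⟩
  · have h1 : Summable (fun i : ℕ => (i : ℝ) ^ (-2 : ℝ)) :=
      Real.summable_nat_rpow.2 (by norm_num)
    refine (summable_nat_add_iff (i0 + 3)).1 ?_
    have h2 := (summable_nat_add_iff (i0 + 3)).2 h1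
    refine h2.congr fun i => ?_
    rw [if_neg (by omega)]
  · intro i j hj p hp
    have hp' := mem_Bp.1 hp
    rw [hp'.2]
    rw [hH, mem_filter, mem_Ioc] at hj
    exact (Nat.le_floor_iff (Real.exp_pos _).le).1 hj.1.2
  · intro i h hh
    simp only
    split_ifs with hi
    · rw [ENNReal.ofReal_one]
      exact prob_le_one
    · have hi3 : 3 ≤ i := by omega
      have hir : (3 : ℝ) ≤ i := by exact_mod_cast hi3
      have hipos : (0 : ℝ) < i := by linarith
      have hlog1 : 1 ≤ Real.log i := by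
        rw [Real.le_log_iff_exp_le hipos]
        have := Real.exp_one_lt_d9
        linarith
      have hlog0 : 0 ≤ Real.log i := by linarith
      obtain ⟨s, hs⟩ : ∃ s : ℝ, s = 2 * Real.log i := ⟨_, rfl⟩
      have hsum : ∀ ω, ∑ j ∈ H i, (ofInd F hm hF hc hind).d h j ω =
          ∑ p ∈ H i, X1 F h p ω := by
        intro ω
        refine sum_congr rfl fun j hj => ?_
        rw [hH, mem_filter] at hj
        unfold Dat.d X1
        have e1 : (ofInd F hm hF hc hind).B j = {j} := by
          change Bp j = {j}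
          unfold Bp
          rw [if_pos hj.2]
        rw [e1, sum_singleton]
        rfl
      simp only [hsum]
      -- the large primes
      obtain ⟨S', hS'⟩ : ∃ S' : Finset ℕ, S' = (Ioc ⌊Real.log i⌋₊ ⌊Real.exp i⌋₊).filter
          (fun p : ℕ => p.Prime ∧ 2 * s ≤ p) := ⟨_, rfl⟩
      have hsub : S' ⊆ H i := by
        intro p hp
        rw [hS', mem_filter, mem_Ioc] at hp
        rw [hH, mem_filter, mem_Ioc]
        exact ⟨⟨hp.2.1.pos, hp.1.2⟩, hp.2.1⟩
      have hT : 4 * R' ≤ ∑ p ∈ S', (1 - ‖∫ ω, F p ω ∂μ‖) / p := by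
        have h1 := hi0 i (by omega)
        have h2 : ∑ p ∈ (Ioc ⌊Real.log i⌋₊ ⌊Real.exp i⌋₊).filter Nat.Prime,
            (1 - ‖∫ ω, F p ω ∂μ‖) / p ≤ ∑ p ∈ S', (1 - ‖∫ ω, F p ω ∂μ‖) / p + 4 := by
          have h3 : S' ⊆ (Ioc ⌊Real.log i⌋₊ ⌊Real.exp i⌋₊).filter Nat.Prime := by
            intro p hp
            rw [hS', mem_filter] at hp
            rw [mem_filter]
            exact ⟨hp.1, hp.2.1⟩
          rw [← sum_sdiff h3, add_comm]
          refine add_le_add_right ?_ _
          have h4 : (Ioc ⌊Real.log i⌋₊ ⌊Real.exp i⌋₊).filter Nat.Prime \ S' ⊆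
              Ioc ⌊Real.log i⌋₊ ⌊2 * s⌋₊ := by
            intro p hp
            rw [Finset.mem_sdiff, mem_filter, hS', mem_filter, not_and, not_and, not_le] at hp
            rw [mem_Ioc]
            refine ⟨(mem_Ioc.1 hp.1.1).1, Nat.le_floor ?_⟩
            exact (hp.2 hp.1.1 hp.1.2).le
          calc ∑ p ∈ (Ioc ⌊Real.log i⌋₊ ⌊Real.exp i⌋₊).filter Nat.Prime \ S',
              (1 - ‖∫ ω, F p ω ∂μ‖) / p
              ≤ ∑ p ∈ (Ioc ⌊Real.log i⌋₊ ⌊Real.exp i⌋₊).filter Nat.Prime \ S',
                1 / Real.log i := by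
                refine sum_le_sum fun p hp => ?_
                rw [Finset.mem_sdiff, mem_filter, mem_Ioc] at hp
                have hpl : Real.log i < p := (Nat.floor_lt' (by have := hp.1.2.pos; omega)).1 hp.1.1.1
                have hppos : (0 : ℝ) < p := by linarith
                calc (1 - ‖∫ ω, F p ω ∂μ‖) / p ≤ 1 / p := by
                      gcongr
                      have := norm_nonneg (∫ ω, F p ω ∂μ)
                      linarith
                  _ ≤ 1 / Real.log i := by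
                      apply one_div_le_one_div_of_le (by linarith) hpl.le
            _ ≤ ∑ p ∈ Ioc ⌊Real.log i⌋₊ ⌊2 * s⌋₊, 1 / Real.log i :=
                sum_le_sum_of_subset_of_nonneg h4 fun _ _ _ => by positivity
            _ = ((⌊2 * s⌋₊ - ⌊Real.log i⌋₊ : ℕ) : ℝ) * (1 / Real.log i) := by
                rw [sum_const, Nat.card_Ioc, nsmul_eq_mul]
            _ ≤ (4 * Real.log i) * (1 / Real.log i) := by
                refine mul_le_mul_of_nonneg_right ?_ (by positivity)
                have h5 : (⌊2 * s⌋₊ : ℝ) ≤ 2 * s := Nat.floor_le (by rw [hs]; positivity)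
                have h6 : ((⌊2 * s⌋₊ - ⌊Real.log i⌋₊ : ℕ) : ℝ) ≤ (⌊2 * s⌋₊ : ℝ) := by
                  exact_mod_cast Nat.sub_le _ _
                rw [hs] at h5 h6
                rw [hs]
                linarith
            _ = 4 := by field_simp
        linarith
      have hmain := chernoff (μ := μ) hm hF hind hh (s := s) (R := R') (T := 4 * R')
        (by rw [hs]; positivity) (H i) S' hsub (by
          intro p hp
          rw [hS', mem_filter] at hp
          exact ⟨hp.2.1.pos, hp.2.2⟩) hT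
      refine (measure_mono ?_).trans (hmain.trans ?_)
      · intro ω hω
        simp only [Set.mem_setOf_eq] at hω ⊢
        exact hω.trans_le hRR'
      · refine ENNReal.ofReal_le_ofReal ?_
        rw [Real.rpow_def_of_pos hipos]
        refine Real.exp_le_exp.2 ?_
        rw [hs]
        nlinarith

end Pool.H2.BS
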