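import Mathlib
import Pool.Agent.H2.BS.DetB
import Pool.Agent.H2.BS.Def
import Pool.Agent.H2.BS.Fib
import Pool.Agent.H75.AP.MertensB

/-!
Examples of the deterministic theorem: sign changes on one window of primes, and twists by `z ^ Ω(n)`.
-/

set_option autoImplicit false

open Finset

namespace Pool.H2.BS

open Pool.H2.EL Pool.H2.MT Pool.Agent.H1.LP Pool.Agent.H75.AP

/-- `n ↦ z ^ Ω(n)` -/
noncomputable def zO (z : ℂ) : ArithmeticFunction ℂ :=
  ⟨fun n => if n = 0 then 0 else z ^ ArithmeticFunction.cardFactors n, by simp⟩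

lemma zO_apply {z : ℂ} {n : ℕ} (hn : n ≠ 0) : zO z n = z ^ ArithmeticFunction.cardFactors n := by
  change (if n = 0 then 0 else z ^ ArithmeticFunction.cardFactors n) = _
  rw [if_neg hn]

lemma zO_mult (z : ℂ) : (zO z).IsMultiplicative := by
  refine ⟨?_, ?_⟩
  · rw [zO_apply one_ne_zero]
    simp
  · intro m n hmn
    rcases eq_or_ne m 0 with hm | hm
    · rw [hm, zero_mul, ArithmeticFunction.map_zero, zero_mul]
    rcases eq_or_ne n 0 with hn | hn
    · rw [hn, mul_zero, ArithmeticFunction.map_zero, mul_zero]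
    rw [zO_apply (mul_ne_zero hm hn), zO_apply hm, zO_apply hn,
      ArithmeticFunction.cardFactors_mul hm hn, pow_add]

lemma zO_norm {z : ℂ} (hz : ‖z‖ = 1) (n : ℕ) : ‖zO z n‖ ≤ 1 := by
  rcases eq_or_ne n 0 with hn | hn
  · rw [hn, ArithmeticFunction.map_zero, norm_zero]
    exact zero_le_one
  · rw [zO_apply hn, norm_pow, hz, one_pow]

lemma zO_prime {z : ℂ} {p : ℕ} (hp : p.Prime) : zO z p = z := by
  rw [zO_apply hp.ne_zero, ArithmeticFunction.cardFactors_apply_prime hp, pow_one]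

lemma one_sub_unit {z w : ℂ} (hz : ‖z‖ = 1) (hw : ‖w‖ = 1) :
    1 - (z * (starRingEnd ℂ) w).re = ‖z - w‖ ^ 2 / 2 := by
  have h1 : ‖z - w‖ ^ 2 = ‖z‖ ^ 2 + ‖w‖ ^ 2 - 2 * (z * (starRingEnd ℂ) w).re := by
    rw [← Complex.normSq_eq_norm_sq, ← Complex.normSq_eq_norm_sq, ← Complex.normSq_eq_norm_sq,
      Complex.normSq_sub]
  rw [h1, hz, hw]
  ring

/-- the distance between `z ^ Ω` and `w ^ Ω` -/
lemma ds_zO {z w : ℂ} (hz : ‖z‖ = 1) (hw : ‖w‖ = 1) (y x : ℝ) :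
    distSq (fun n => zO z n * (starRingEnd ℂ) (zO w n)) (1 : DirichletCharacter ℂ 1) 0 y x =
      ‖z - w‖ ^ 2 / 2 * ∑ p ∈ (Ioc ⌊y⌋₊ ⌊x⌋₊).filter Nat.Prime, 1 / (p : ℝ) := by
  rw [ds_one, mul_sum]
  refine sum_congr rfl fun p hp => ?_
  rw [mem_filter] at hp
  rw [zO_prime hp.2, zO_prime hp.2, one_sub_unit hz hw, mul_one_div]

/-- the primes of `(N ^ a, N]` have bounded mass -/
theorem mass_tail {a : ℝ} (ha : 0 < a) : ∃ B : ℝ, 0 < B ∧ ∃ N₀ : ℕ, ∀ N : ℕ, N₀ ≤ N →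
    ∑ p ∈ (Ioc ⌊(N : ℝ) ^ a⌋₊ ⌊(N : ℝ)⌋₊).filter Nat.Prime, 1 / (p : ℝ) ≤ B := by
  classical
  obtain ⟨C1, hC1, h1⟩ := mertens_upper
  obtain ⟨C2, hC2, h2⟩ := mertens_low
  obtain ⟨N₁, hN₁⟩ := exists_nat_ge ((3 : ℝ) ^ (1 / a))
  refine ⟨|Real.log a| + C1 + C2, by positivity, max N₁ 3, fun N hN => ?_⟩
  have hN3 : 3 ≤ N := (le_max_right _ _).trans hN
  have hN3r : (3 : ℝ) ≤ N := by exact_mod_cast hN3
  have hN0 : (0 : ℝ) < N := by linarith
  have hNa : (3 : ℝ) ≤ (N : ℝ) ^ a := by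
    have h3 : (3 : ℝ) ^ (1 / a) ≤ N := hN₁.trans (by exact_mod_cast (le_max_left _ _).trans hN)
    have h4 := Real.rpow_le_rpow (by positivity) h3 ha.le
    rwa [← Real.rpow_mul (by norm_num), one_div_mul_cancel ha.ne', Real.rpow_one] at h4
  have hu := h1 N hN3r
  have hl := h2 ((N : ℝ) ^ a) hNa
  have hlogN : 0 < Real.log N := Real.log_pos (by linarith)
  have e1 : Real.log (Real.log ((N : ℝ) ^ a)) = Real.log a + Real.log (Real.log N) := by
    rw [Real.log_rpow hN0, Real.log_mul ha.ne' hlogN.ne']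
  rw [e1] at hl
  have hPI : ∀ v : ℝ, PI 0 v = (Ioc 0 ⌊v⌋₊).filter Nat.Prime := by
    intro v
    ext p
    unfold PI
    simp only [mem_filter, mem_range, mem_Ioc]
    constructor
    · rintro ⟨h3, h4, _⟩
      exact ⟨⟨h4.pos, by omega⟩, h4⟩
    · rintro ⟨⟨h3, h4⟩, h5⟩
      exact ⟨by omega, h5, by exact_mod_cast h5.pos⟩
  rw [hPI] at hu hl
  have hsub : (Ioc 0 ⌊(N : ℝ) ^ a⌋₊).filter Nat.Prime ∪
      (Ioc ⌊(N : ℝ) ^ a⌋₊ ⌊(N : ℝ)⌋₊).filter Nat.Prime =
      (Ioc 0 (max ⌊(N : ℝ) ^ a⌋₊ ⌊(N : ℝ)⌋₊)).filter Nat.Prime := by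
    ext p
    simp only [mem_union, mem_filter, mem_Ioc, le_max_iff]
    constructor
    · rintro (⟨⟨h3, h4⟩, h5⟩ | ⟨⟨h3, h4⟩, h5⟩)
      · exact ⟨⟨h3, Or.inl h4⟩, h5⟩
      · exact ⟨⟨by omega, Or.inr h4⟩, h5⟩
    · rintro ⟨⟨h3, h4⟩, h5⟩
      rcases le_or_gt p ⌊(N : ℝ) ^ a⌋₊ with h6 | h6
      · exact Or.inl ⟨⟨h3, h6⟩, h5⟩
      · rcases h4 with h4 | h4
        · exact Or.inl ⟨⟨h3, h4⟩, h5⟩
        · exact Or.inr ⟨⟨h6, h4⟩, h5⟩
  rcases le_total ⌊(N : ℝ) ^ a⌋₊ ⌊(N : ℝ)⌋₊ with hle | hle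
  · have hdisj : Disjoint ((Ioc 0 ⌊(N : ℝ) ^ a⌋₊).filter Nat.Prime)
        ((Ioc ⌊(N : ℝ) ^ a⌋₊ ⌊(N : ℝ)⌋₊).filter Nat.Prime) := by
      rw [Finset.disjoint_left]
      intro p hp hp'
      rw [mem_filter, mem_Ioc] at hp hp'
      omega
    have h3 := sum_union (f := fun p : ℕ => 1 / (p : ℝ)) hdisj
    rw [hsub, max_eq_right hle] at h3
    have h4 := abs_le.1 (le_refl |Real.log a|)
    have h5 := neg_abs_le (Real.log a)
    linarith
  · rw [Ioc_eq_empty (by omega)]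
    simp only [filter_empty, sum_empty]
    positivity

/-- twists by `z ^ Ω(n)`: at every scale the bad `z` lie in few short arcs -/
theorem omega_twist (k : ℕ) (h : Fin k → ℤ) (j : Fin k) (hne : ∀ i, i ≠ j → h i ≠ h j) {ε : ℝ}
    (hε : 0 < ε) :
    ∃ (K : ℕ) (D : ℝ) (N₀ : ℕ), ∀ N : ℕ, N₀ ≤ N →
      ∀ (S : Finset (Fin k)), j ∉ S → ∀ d : Fin k → ArithmeticFunction ℂ, (∀ x n, ‖d x n‖ ≤ 1) →
      ∃ (n : ℕ) (c : Fin n → ℂ), n ≤ K ∧ ∀ z : ℂ, ‖z‖ = 1 →
      (∀ i, D / Real.log (Real.log N) ≤ ‖z - c i‖ ^ 2) →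
      ∀ G : Fin k → ArithmeticFunction ℂ, (∀ x n, ‖G x n‖ ≤ 1) →
      (∀ x ∈ S, (G x).IsMultiplicative) → (∀ x, x ∉ S → x ≠ j → G x = d x) →
      (∀ n, n ≠ 0 → G j n = d j n * z ^ ArithmeticFunction.cardFactors n) →
      ‖(1 / (N : ℂ)) * ∑ n ∈ Icc 1 N, ∏ x, G x ((n : ℤ) + h x).toNat‖ ≤ ε := by
  classical
  obtain ⟨K0, a, ha, ha1, hbes⟩ := bes k h j hne hε
  obtain ⟨D0, N0, hbes⟩ := hbes 1
  obtain ⟨B, hB, N1, hmass⟩ := mass_tail ha
  obtain ⟨C2, hC2, hlow⟩ := mertens_low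
  obtain ⟨m, hm⟩ := exists_nat_ge (max 1 (B / a))
  have hm1 : (1 : ℝ) ≤ m := (le_max_left _ _).trans hm
  have hm0 : (0 : ℝ) < m := by linarith
  have hmB : B ≤ a * m := by
    have := (le_max_right 1 (B / a)).trans hm
    rw [div_le_iff₀ ha] at this
    linarith
  obtain ⟨N2, hN2⟩ := exists_nat_ge (Real.exp (Real.exp (2 * C2 + 1)))
  refine ⟨(2 * m + 1) ^ 2 * K0, 4 * |D0|, N0 + N1 + N2 + 3, fun N hN S hjS d hd => ?_⟩
  have hN3r : (3 : ℝ) ≤ N := by exact_mod_cast (show 3 ≤ N by omega)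
  have hNpos : (0 : ℝ) < N := by linarith
  have hLL : 2 * C2 + 1 ≤ Real.log (Real.log N) := by
    have h1 : Real.exp (Real.exp (2 * C2 + 1)) ≤ N :=
      hN2.trans (by exact_mod_cast (show N2 ≤ N by omega))
    have h2 : Real.exp (2 * C2 + 1) ≤ Real.log N := by
      rw [Real.le_log_iff_exp_le hNpos]
      exact h1
    have h3 : 0 < Real.log N := (Real.exp_pos _).trans_le h2
    rw [Real.le_log_iff_exp_le h3]
    exact h2
  have hLLpos : 0 < Real.log (Real.log N) := by linarith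
  obtain ⟨n, hn, c, hc⟩ := cover
    (fun z w : ℂ => 4 * |D0| / Real.log (Real.log N) ≤ ‖z - w‖ ^ 2)
    (fun z w hzw => by rwa [norm_sub_rev])
    {z | ‖z‖ = 1 ∧ ∃ G : Fin k → ArithmeticFunction ℂ, (∀ x n, ‖G x n‖ ≤ 1) ∧
      (∀ x ∈ S, (G x).IsMultiplicative) ∧ (∀ x, x ∉ S → x ≠ j → G x = d x) ∧
      (∀ n, n ≠ 0 → G j n = d j n * z ^ ArithmeticFunction.cardFactors n) ∧
      ¬ ‖(1 / (N : ℂ)) * ∑ n ∈ Icc 1 N, ∏ x, G x ((n : ℤ) + h x).toNat‖ ≤ ε}
    ((2 * m + 1) ^ 2 * K0 + 1) (by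
      intro f hf
      by_contra hcon
      push Not at hcon
      -- the cells
      obtain ⟨cell, hcell⟩ : ∃ cell : ℂ → Fin (2 * m + 1) × Fin (2 * m + 1),
          ∀ z w : ℂ, ‖z‖ = 1 → ‖w‖ = 1 → cell z = cell w → ‖z - w‖ ^ 2 ≤ 2 / (m : ℝ) ^ 2 := by
        have hco : ∀ x : ℝ, |x| ≤ 1 → ⌊(x + 1) * m⌋₊ < 2 * m + 1 := by
          intro x hx
          have h1 := abs_le.1 hx
          have h2 : (x + 1) * m ≤ (2 * m : ℕ) := by
            push_cast
            nlinarith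
          have h3 := Nat.floor_le_of_le h2
          omega
        refine ⟨fun z => if hz : ‖z‖ = 1 then
          (⟨⌊(z.re + 1) * m⌋₊, hco _ ((Complex.abs_re_le_norm z).trans hz.le)⟩,
            ⟨⌊(z.im + 1) * m⌋₊, hco _ ((Complex.abs_im_le_norm z).trans hz.le)⟩) else
          (⟨0, by omega⟩, ⟨0, by omega⟩), fun z w hz hw hzw => ?_⟩
        simp only at hzw
        rw [dif_pos hz, dif_pos hw, Prod.mk.injEq, Fin.mk.injEq, Fin.mk.injEq] at hzw
        have hfl : ∀ x y : ℝ, |x| ≤ 1 → |y| ≤ 1 → ⌊(x + 1) * m⌋₊ = ⌊(y + 1) * m⌋₊ →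
            (x - y) ^ 2 ≤ 1 / (m : ℝ) ^ 2 := by
          intro x y hx hy hxy
          have h1 := abs_le.1 hx
          have h2 := abs_le.1 hy
          have h3 := Nat.floor_le (show 0 ≤ (x + 1) * m by nlinarith)
          have h4 := Nat.lt_floor_add_one ((x + 1) * m)
          have h5 := Nat.floor_le (show 0 ≤ (y + 1) * m by nlinarith)
          have h6 := Nat.lt_floor_add_one ((y + 1) * m)
          rw [hxy] at h3 h4
          have h7 : |(x - y) * m| ≤ 1 := by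
            rw [abs_le]
            constructor <;> nlinarith
          have h8 : ((x - y) * m) ^ 2 ≤ 1 := by
            rw [← sq_abs]
            exact pow_le_one₀ (abs_nonneg _) h7
          rw [le_div_iff₀ (by positivity)]
          nlinarith
        have e1 := hfl z.re w.re ((Complex.abs_re_le_norm z).trans hz.le)
          ((Complex.abs_re_le_norm w).trans hw.le) hzw.1
        have e2 := hfl z.im w.im ((Complex.abs_im_le_norm z).trans hz.le)
          ((Complex.abs_im_le_norm w).trans hw.le) hzw.2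
        rw [← Complex.normSq_eq_norm_sq, Complex.normSq_apply, Complex.sub_re, Complex.sub_im]
        have e3 : (2 : ℝ) / (m : ℝ) ^ 2 = 1 / (m : ℝ) ^ 2 + 1 / (m : ℝ) ^ 2 := by ring
        rw [e3]
        nlinarith
      obtain ⟨y0, _, hy0⟩ := exists_lt_card_fiber_of_mul_lt_card_of_maps_to
        (s := (univ : Finset (Fin ((2 * m + 1) ^ 2 * K0 + 1))))
        (t := (univ : Finset (Fin (2 * m + 1) × Fin (2 * m + 1)))) (f := fun i => cell (f i))
        (n := K0) (fun _ _ => mem_univ _) (by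
          rw [card_univ, card_univ, Fintype.card_prod, Fintype.card_fin, Fintype.card_fin]
          nlinarith)
      obtain ⟨T, hT, hTc⟩ := exists_subset_card_eq (Nat.succ_le_of_lt hy0)
      obtain ⟨e, he, heT⟩ : ∃ e : Fin (K0 + 1) → Fin ((2 * m + 1) ^ 2 * K0 + 1),
          Function.Injective e ∧ ∀ i, e i ∈ T :=
        ⟨fun i => T.orderEmbOfFin hTc i, (T.orderEmbOfFin hTc).injective,
          fun i => orderEmbOfFin_mem T hTc i⟩
      have hye : ∀ i, cell (f (e i)) = y0 := fun i => (mem_filter.1 (hT (heT i))).2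
      obtain ⟨i, hi⟩ := hbes N (by omega) (fun i => zO (f (e i))) (fun i => zO_mult _)
        (fun i n => zO_norm (hf _).1 n) (by
          intro i i' hii
          refine ⟨1, 1, 0, one_pos, le_rfl, by simp, ?_, ?_⟩
          · rw [ds_zO (hf _).1 (hf _).1]
            have h1 := hcell _ _ (hf (e i)).1 (hf (e i')).1 ((hye i).trans (hye i').symm)
            have h2 := hmass N (by omega)
            have h3 : (0 : ℝ) ≤ ∑ p ∈ (Ioc ⌊(N : ℝ) ^ a⌋₊ ⌊(N : ℝ)⌋₊).filter Nat.Prime,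
                1 / (p : ℝ) := sum_nonneg fun p _ => by positivity
            calc ‖f (e i) - f (e i')‖ ^ 2 / 2 * _ ≤ (2 / (m : ℝ) ^ 2) / 2 * B := by
                  refine mul_le_mul ?_ h2 h3 (by positivity)
                  linarith
              _ = B / (m : ℝ) ^ 2 := by ring
              _ ≤ a := by
                  rw [div_le_iff₀ (by positivity)]
                  nlinarith
          · rw [ds_zO (hf _).1 (hf _).1]
            have h1 := hcon (e i) (e i') (fun h1 => hii (he h1))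
            have h2 := hlow N hN3r
            have h3 : ∑ p ∈ PI 0 (N : ℝ), 1 / (p : ℝ) =
                ∑ p ∈ (Ioc ⌊(0 : ℝ)⌋₊ ⌊(N : ℝ)⌋₊).filter Nat.Prime, 1 / (p : ℝ) := by
              refine sum_congr ?_ fun _ _ => rfl
              ext p
              unfold PI
              rw [Nat.floor_zero]
              simp only [mem_filter, mem_range, mem_Ioc]
              constructor
              · rintro ⟨h3, h4, _⟩
                exact ⟨⟨h4.pos, by omega⟩, h4⟩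
              · rintro ⟨⟨h3, h4⟩, h5⟩
                exact ⟨by omega, h5, by exact_mod_cast h5.pos⟩
            rw [h3] at h2
            have h4 : Real.log (Real.log N) / 2 ≤
                ∑ p ∈ (Ioc ⌊(0 : ℝ)⌋₊ ⌊(N : ℝ)⌋₊).filter Nat.Prime, 1 / (p : ℝ) := by linarith
            calc D0 ≤ |D0| := le_abs_self _
              _ = 4 * |D0| / Real.log (Real.log N) / 2 * (Real.log (Real.log N) / 2) := by
                  field_simp
                  ring
              _ ≤ _ := mul_le_mul (div_le_div_of_nonneg_right h1 zero_le_two) h4 (by positivity)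
                  (by positivity)) S hjS d hd
      obtain ⟨_, G, hG1, hG2, hG3, hG4, hG5⟩ := hf (e i)
      refine hG5 (hi G hG1 hG2 hG3 (fun n => ?_))
      rcases eq_or_ne n 0 with h0 | h0
      · rw [h0, ArithmeticFunction.map_zero, ArithmeticFunction.map_zero,
          ArithmeticFunction.map_zero, mul_zero]
      · rw [hG4 n h0, zO_apply h0])
  refine ⟨n, c, by omega, fun z hz hsep G hG1 hG2 hG3 hG4 => ?_⟩
  by_contra hbad
  obtain ⟨i, hi⟩ := hc z ⟨hz, G, hG1, hG2, hG3, hG4, hbad⟩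
  exact hi (hsep i)

end Pool.H2.BS
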