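import Mathlib
import Pool.Agent.H2.BS.DetB
import Pool.Agent.H2.BS.Def
import Pool.Agent.H2.BS.Fib

/-!
Example of the deterministic theorem: sign changes on one window of primes.
-/

set_option autoImplicit false

open Finset

namespace Pool.H2.BS

open Pool.H2.EL Pool.H2.MT Pool.Agent.H1.LP

/-- `n ↦ (-1) ^ (number of prime factors of n in W, with multiplicity)` -/
noncomputable def wO (W : Finset ℕ) : ArithmeticFunction ℂ :=
  ⟨fun n => if n = 0 then 0 else (-1) ^ (∑ p ∈ W, n.factorization p), by simp⟩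

lemma wO_apply {W : Finset ℕ} {n : ℕ} (hn : n ≠ 0) :
    wO W n = (-1) ^ (∑ p ∈ W, n.factorization p) := by
  change (if n = 0 then 0 else (-1 : ℂ) ^ (∑ p ∈ W, n.factorization p)) = _
  rw [if_neg hn]

lemma wO_mult (W : Finset ℕ) : (wO W).IsMultiplicative := by
  refine ⟨?_, ?_⟩
  · rw [wO_apply one_ne_zero]
    simp
  · intro m n hmn
    rcases eq_or_ne m 0 with hm | hm
    · rw [hm, zero_mul, ArithmeticFunction.map_zero, zero_mul]
    rcases eq_or_ne n 0 with hn | hn
    · rw [hn, mul_zero, ArithmeticFunction.map_zero, mul_zero]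
    rw [wO_apply (mul_ne_zero hm hn), wO_apply hm, wO_apply hn, ← pow_add, ← sum_add_distrib]
    congr 1
    refine sum_congr rfl fun p _ => ?_
    rw [Nat.factorization_mul hm hn]
    rfl

lemma wO_norm (W : Finset ℕ) (n : ℕ) : ‖wO W n‖ ≤ 1 := by
  rcases eq_or_ne n 0 with hn | hn
  · rw [hn, ArithmeticFunction.map_zero, norm_zero]
    exact zero_le_one
  · rw [wO_apply hn, norm_pow, norm_neg, norm_one, one_pow]

lemma wO_prime {W : Finset ℕ} {p : ℕ} (hp : p.Prime) : wO W p = if p ∈ W then -1 else 1 := by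
  rw [wO_apply hp.ne_zero, hp.factorization]
  split_ifs with h
  · rw [sum_eq_single p]
    · simp
    · intro q _ hq
      exact Finsupp.single_eq_of_ne hq
    · intro h1
      exact absurd h h1
  · rw [sum_eq_zero, pow_zero]
    intro q hq
    refine Finsupp.single_eq_of_ne ?_
    rintro rfl
    exact h hq

/-- sign changes on one window: at every scale all but `K` of any disjoint windows are good -/
theorem window_twist (k : ℕ) (h : Fin k → ℤ) (j : Fin k) (hne : ∀ i, i ≠ j → h i ≠ h j) {ε : ℝ}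
    (hε : 0 < ε) :
    ∃ (K : ℕ) (a D : ℝ) (N₀ : ℕ), 0 < a ∧ ∀ N : ℕ, N₀ ≤ N →
      ∀ W : Fin (K + 1) → Finset ℕ, (∀ m, ∀ p ∈ W m, p.Prime ∧ (p : ℝ) ≤ (N : ℝ) ^ a) →
      (∀ m m', m ≠ m' → Disjoint (W m) (W m')) → (∀ m, D ≤ ∑ p ∈ W m, 1 / (p : ℝ)) →
      ∀ (S : Finset (Fin k)), j ∉ S → ∀ d : Fin k → ArithmeticFunction ℂ, (∀ x n, ‖d x n‖ ≤ 1) →
      ∃ m, ∀ G : Fin k → ArithmeticFunction ℂ, (∀ x n, ‖G x n‖ ≤ 1) →
      (∀ x ∈ S, (G x).IsMultiplicative) → (∀ x, x ∉ S → x ≠ j → G x = d x) →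
      (∀ n, n ≠ 0 → G j n = d j n * (-1) ^ (∑ p ∈ W m, n.factorization p)) →
      ‖(1 / (N : ℂ)) * ∑ n ∈ Icc 1 N, ∏ x, G x ((n : ℤ) + h x).toNat‖ ≤ ε := by
  classical
  obtain ⟨K0, a, ha, ha1, hbes⟩ := bes k h j hne hε
  obtain ⟨D0, N0, hbes⟩ := hbes 1
  refine ⟨K0, a, |D0|, N0 + 1, ha, fun N hN W hW hdis hmass S hjS d hd => ?_⟩
  have hN1 : (1 : ℝ) ≤ N := by exact_mod_cast (show 1 ≤ N by omega)
  obtain ⟨m, hm⟩ := hbes N (by omega) (fun m => wO (W m)) (fun m => wO_mult _)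
    (fun m n => wO_norm _ n) (by
      intro m m' hmm
      refine ⟨1, 1, 0, one_pos, le_rfl, by simp, ?_, ?_⟩
      · rw [ds_one]
        refine le_trans (le_of_eq ?_) ha.le
        refine sum_eq_zero fun p hp => ?_
        rw [mem_filter, mem_Ioc] at hp
        have h1 : ∀ m, p ∉ W m := by
          intro m hpm
          have h2 := (hW m p hpm).2
          have h3 := (Nat.floor_lt' (by have := hp.2.pos; omega)).1 hp.1.1
          linarith
        rw [wO_prime hp.2, wO_prime hp.2, if_neg (h1 m), if_neg (h1 m')]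
        simp
      · rw [ds_one]
        have hsub : W m ⊆ (Ioc ⌊(0 : ℝ)⌋₊ ⌊(N : ℝ)⌋₊).filter Nat.Prime := by
          intro p hp
          obtain ⟨h1, h2⟩ := hW m p hp
          rw [mem_filter, mem_Ioc, Nat.floor_zero, Nat.floor_natCast]
          have h3 : (N : ℝ) ^ a ≤ (N : ℝ) ^ (1 : ℝ) := Real.rpow_le_rpow_of_exponent_le hN1 ha1
          rw [Real.rpow_one] at h3
          exact ⟨⟨h1.pos, by exact_mod_cast h2.trans h3⟩, h1⟩
        calc D0 ≤ |D0| := le_abs_self _
          _ ≤ ∑ p ∈ W m, 1 / (p : ℝ) := hmass m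
          _ ≤ ∑ p ∈ W m, (1 - (wO (W m) p * (starRingEnd ℂ) (wO (W m') p)).re) / (p : ℝ) := by
              refine sum_le_sum fun p hp => ?_
              have h1 := (hW m p hp).1
              have h2 : p ∉ W m' := Finset.disjoint_left.1 (hdis m m' hmm) hp
              rw [wO_prime h1, wO_prime h1, if_pos hp, if_neg h2]
              refine div_le_div_of_nonneg_right ?_ (Nat.cast_nonneg p)
              norm_num
          _ ≤ _ := by
              refine sum_le_sum_of_subset_of_nonneg hsub fun p _ _ => ?_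
              exact div_nonneg (one_sub_nonneg (wO_norm _ _) (wO_norm _ _)) (Nat.cast_nonneg p))
    S hjS d hd
  refine ⟨m, fun G hG1 hG2 hG3 hG4 => hm G hG1 hG2 hG3 fun n => ?_⟩
  rcases eq_or_ne n 0 with h0 | h0
  · rw [h0, ArithmeticFunction.map_zero, ArithmeticFunction.map_zero,
      ArithmeticFunction.map_zero, mul_zero]
  · rw [hG4 n h0, wO_apply h0]

end Pool.H2.BS
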