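import Mathlib
import Pool.Agent.H2.BS.Res

/-!
The random theorem.
-/

set_option autoImplicit false

open Finset MeasureTheory ProbabilityTheory

namespace Pool.H2.BS

open Pool.H2.EL Pool.H2.MT

variable {Ω : Type} [MeasurableSpace Ω] {μ : Measure Ω}

theorem Dat.hu [IsProbabilityMeasure μ] (D : Dat Ω μ) (hSB : D.SB) :
    HU μ (fun ω p => D.F p ω) :=
  fun _ hr E cc w hw => D.mainU hSB hr E cc w hw

theorem Dat.res [IsProbabilityMeasure μ] (D : Dat Ω μ) (hSB : D.SB)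
    (w : ℕ → ArithmeticFunction ℂ) (hw : ∀ l n, ‖w l n‖ ≤ 1) :
    ∀ᵐ ω ∂μ, ∀ (k : ℕ) (j : Fin k) (h : Fin k → ℤ) (τ : Fin k → Option ℕ),
      (∀ x, x ≠ j → h x ≠ h j) → ∀ ε : ℝ, 0 < ε → ∃ N₀ : ℕ, ∀ N : ℕ, N₀ ≤ N →
      ∀ G : Fin k → ArithmeticFunction ℂ, (G j).IsMultiplicative → (∀ n, ‖G j n‖ ≤ 1) →
      (∀ p : ℕ, p.Prime → G j p = D.F p ω) →
      (∀ x, x ≠ j → (∃ l, τ x = some l ∧ G x = w l) ∨
        (τ x = none ∧ (G x).IsMultiplicative ∧ ∀ n, ‖G x n‖ ≤ 1)) →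
      ‖(1 / (N : ℂ)) * ∑ n ∈ Icc 1 N, ∏ x, G x ((n : ℤ) + h x).toNat‖ ≤ ε :=
  resM (D.hu hSB) w hw

end Pool.H2.BS
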