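import Mathlib
import Pool.Agent.H2.BS.ResR

/-!
The random theorem with explicit hypotheses.
-/

set_option autoImplicit false

open Finset MeasureTheory ProbabilityTheory

namespace Pool.H2.BS

theorem resS {Ω : Type} [MeasurableSpace Ω] (μ : Measure Ω) [IsProbabilityMeasure μ]
    (B : ℕ → Finset ℕ) (hB : ∀ j, ∀ p ∈ B j, p.Prime) (hd : ∀ i j, i ≠ j → Disjoint (B i) (B j))
    (f : ℕ → Ω → ℂ) (hm : ∀ p, Measurable (f p)) (hb : ∀ p ω, ‖f p ω‖ ≤ 1)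
    (hc : ∀ p, (∀ j, p ∉ B j) → ∀ ω ω', f p ω = f p ω')
    (hi : iIndepFun (fun j ω (p : B j) => f p ω) μ)
    (hs : ∀ R : ℝ, ∃ (H : ℕ → Finset ℕ) (q : ℕ → ℝ), Summable q ∧
      (∀ i, ∀ j ∈ H i, ∀ p ∈ B j, (p : ℝ) ≤ Real.exp i) ∧
      ∀ i (g : ℕ → ℂ), (∀ p, ‖g p‖ ≤ 1) →
        μ {ω | ∑ j ∈ H i, ∑ p ∈ B j, (1 - (f p ω * starRingEnd ℂ (g p)).re) / (p : ℝ) < R} ≤
          ENNReal.ofReal (q i))
    (d : ℕ → ArithmeticFunction ℂ) (hdb : ∀ l n, ‖d l n‖ ≤ 1) :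
    ∀ᵐ ω ∂μ, ∀ (k : ℕ) (j : Fin k) (h : Fin k → ℤ) (τ : Fin k → Option ℕ),
      (∀ x, x ≠ j → h x ≠ h j) → ∀ ε : ℝ, 0 < ε → ∃ N₀ : ℕ, ∀ N : ℕ, N₀ ≤ N →
      ∀ G : Fin k → ArithmeticFunction ℂ, (G j).IsMultiplicative → (∀ n, ‖G j n‖ ≤ 1) →
      (∀ p : ℕ, p.Prime → G j p = f p ω) →
      (∀ x, x ≠ j → (∃ l, τ x = some l ∧ G x = d l) ∨
        (τ x = none ∧ (G x).IsMultiplicative ∧ ∀ n, ‖G x n‖ ≤ 1)) →
      ‖(1 / (N : ℂ)) * ∑ n ∈ Icc 1 N, ∏ x, G x ((n : ℤ) + h x).toNat‖ ≤ ε := by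
  obtain ⟨ω0⟩ : Nonempty Ω := μ.nonempty_of_neZero
  let D : Dat Ω μ :=
    { B := B
      F := f
      v := fun p => f p ω0
      prime := hB
      disj := hd
      meas := hm
      bd := hb
      det := fun p hp ω => hc p hp ω ω0
      ind := hi }
  exact D.res hs d hdb

end Pool.H2.BS
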